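import Pool.Agent.W2helper7.HT.Main2
import Pool.Agent.TH213.SP.Red
import Pool.Agent.TH213.SP.Fermat

/-!
# Twists of higher order: finitely many constant types; all integers `d`
-/

set_option autoImplicit false

namespace Pool.Agent.W2helper7.HT

open Finset Filter Polynomial Topology Pool.Agent.W262.RK Pool.Agent.W262.TW
open Pool.Agent.W311.TW (exists_sqf)

open scoped Classical

variable {K : Type} [Fintype K]

/-- for some even `m ≥ 2` the curve `y² = x ∏ F_k(x^m, d)` has a rational point with `x ≠ 0` -/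
def BadE (f : K → ℤ[X]) (d : ℤ) : Prop :=
  ∃ m : ℕ, Even m ∧ 2 ≤ m ∧ ∃ x y : ℚ, x ≠ 0 ∧ y ^ 2 = x * ∏ k, hom (f k) (x ^ m) (d : ℚ)

/-- `d s` is a square for some `s` in the set `S` -/
def InS (S : Set ℚ) (d : ℤ) : Prop := ∃ s ∈ S, s ≠ 0 ∧ IsSquare ((d : ℚ) * s)

lemma inS_finite {S : Set ℚ} (hS : S.Finite) : {d : ℤ | Squarefree d ∧ InS S d}.Finite := by
  have h1 : ∀ d : ℤ, ∃ s : ℚ, (Squarefree d ∧ InS S d) → s ∈ S ∧ s ≠ 0 ∧ IsSquare ((d : ℚ) * s) := by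
    intro d
    by_cases h : Squarefree d ∧ InS S d
    · obtain ⟨-, s, hs, hs0, hsq⟩ := h
      exact ⟨s, fun _ => ⟨hs, hs0, hsq⟩⟩
    · exact ⟨0, fun h' => absurd h' h⟩
  choose g hg using h1
  refine Set.Finite.of_finite_image (f := g) (hS.subset ?_) ?_
  · rintro _ ⟨d, hd, rfl⟩
    exact (hg d hd).1
  · intro d hd d' hd' hgg
    obtain ⟨-, h2, u, hu⟩ := hg d hd
    obtain ⟨-, -, v, hv⟩ := hg d' hd'
    have hd0 : (d : ℚ) ≠ 0 := by exact_mod_cast hd.1.ne_zero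
    have hd'0 : (d' : ℚ) ≠ 0 := by exact_mod_cast hd'.1.ne_zero
    have hgg : g d = g d' := hgg
    rw [← hgg] at hv
    have hu0 : u ≠ 0 := by
      rintro rfl
      rw [mul_zero] at hu
      exact mul_ne_zero hd0 h2 hu
    have hv0 : v ≠ 0 := by
      rintro rfl
      rw [mul_zero] at hv
      exact mul_ne_zero hd'0 h2 hv
    refine Pool.Agent.TH213.SP.eq_of hd.1 hd'.1 hv0 hu0 ?_
    apply mul_right_cancel₀ h2
    calc (d : ℚ) * v ^ 2 * g d = (d * g d) * v ^ 2 := by ring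
      _ = (d' * g d) * u ^ 2 := by rw [hu, hv]; ring
      _ = (d' : ℚ) * u ^ 2 * g d := by ring

lemma ev_roots {g : ℤ[X]} (hg : g ≠ 0) : {s : ℚ | ev g s = 0}.Finite := by
  have h1 : g.map (Int.castRingHom ℚ) ≠ 0 := by
    rw [Ne, Polynomial.map_eq_zero_iff (RingHom.injective_int _)]
    exact hg
  refine (g.map (Int.castRingHom ℚ)).rootSet_finite ℚ |>.subset ?_
  intro s hs
  rw [Polynomial.mem_rootSet]
  refine ⟨h1, ?_⟩
  have h2 : ev g s = 0 := hs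
  unfold ev at h2
  rw [Polynomial.coe_aeval_eq_eval, Polynomial.eval_map]
  exact h2

lemma one_le_X {X : ℕ} (hX : 3 ≤ X) : (1 : ℝ) ≤ X * (Real.log X) ^ (-(1 / 5 : ℝ)) := by
  have hX' : (3 : ℝ) ≤ X := by exact_mod_cast hX
  have hl : 1 ≤ Real.log X := by
    rw [Real.le_log_iff_exp_le (by linarith)]
    have := Real.exp_one_lt_d9
    linarith
  have hl2 : Real.log X ≤ X := (Real.log_le_sub_one_of_pos (by linarith)).trans (by linarith)
  rw [Real.rpow_neg (by linarith), ← div_eq_mul_inv, le_div_iff₀ (by positivity), one_mul]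
  refine le_trans ?_ hl2
  calc Real.log X ^ (1 / 5 : ℝ) ≤ Real.log X ^ (1 : ℝ) :=
        Real.rpow_le_rpow_of_exponent_le hl (by norm_num)
    _ = _ := Real.rpow_one _

/-- **finitely many constant types** -/
theorem mainB (f : K → ℤ[X]) (hf : Adm f) (hfin : {s : ℚ | s ≠ 0 ∧ Const f s}.Finite) :
    ∃ C : ℝ, 0 ≤ C ∧ ∀ X : ℕ, 3 ≤ X →
    ({d : ℤ | d.natAbs ≤ X ∧ (Squarefree d ∧ BadE f d)}.ncard : ℝ) ≤
      C * X * (Real.log X) ^ (-(1 / 5 : ℝ)) := by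
  obtain ⟨C, hC, H⟩ := mainA f hf
  have hf0 : ∀ k, f k ≠ 0 := fun k h => hf.h0 k (by rw [h, coeff_zero])
  obtain ⟨S, hS⟩ : ∃ S : Set ℚ, S = {s : ℚ | s ≠ 0 ∧ Const f s} ∪ ⋃ k, {s : ℚ | ev (f k) s = 0} :=
    ⟨_, rfl⟩
  have hSfin : S.Finite := by
    rw [hS]
    exact hfin.union (Set.finite_iUnion fun k => ev_roots (hf0 k))
  have hT := inS_finite hSfin
  refine ⟨C + {d : ℤ | Squarefree d ∧ InS S d}.ncard, by positivity, fun X hX => ?_⟩
  have hsub : {d : ℤ | d.natAbs ≤ X ∧ (Squarefree d ∧ BadE f d)} ⊆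
      {d : ℤ | d.natAbs ≤ X ∧ (Squarefree d ∧ BadD f d)} ∪ {d : ℤ | Squarefree d ∧ InS S d} := by
    rintro d ⟨hdX, hd, m, hm, hm2, x, y, hx, hxy⟩
    have hd0 : (d : ℚ) ≠ 0 := by exact_mod_cast hd.ne_zero
    have hs0 : x ^ m / (d : ℚ) ≠ 0 := div_ne_zero (pow_ne_zero _ hx) hd0
    have hsq : IsSquare ((d : ℚ) * (x ^ m / d)) := by
      rw [mul_div_cancel₀ _ hd0]
      obtain ⟨n, rfl⟩ := hm
      exact ⟨x ^ n, by rw [pow_add]⟩
    by_cases hy : y = 0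
    · right
      refine ⟨hd, x ^ m / d, ?_, hs0, hsq⟩
      rw [hy, zero_pow two_ne_zero] at hxy
      obtain ⟨k, -, hk⟩ := Finset.prod_eq_zero_iff.1 ((mul_eq_zero.1 hxy.symm).resolve_left hx)
      rw [hom_ev _ _ _ hd0] at hk
      rw [hS]
      right
      rw [Set.mem_iUnion]
      exact ⟨k, (mul_eq_zero.1 hk).resolve_left (pow_ne_zero _ hd0)⟩
    · by_cases hc : Const f (x ^ m / d)
      · right
        refine ⟨hd, x ^ m / d, ?_, hs0, hsq⟩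
        rw [hS]
        left
        exact ⟨hs0, hc⟩
      · left
        exact ⟨hdX, hd, m, hm, hm2, x, y, ⟨hx, hy, hxy⟩, hc⟩
  have hfin1 : {d : ℤ | d.natAbs ≤ X ∧ (Squarefree d ∧ BadD f d)}.Finite := by
    apply (Set.finite_Icc (-(X : ℤ)) X).subset
    intro d hd
    have h1 : d.natAbs ≤ X := hd.1
    rw [Set.mem_Icc]
    omega
  have h1 := (Set.ncard_le_ncard hsub (hfin1.union hT)).trans (Set.ncard_union_le _ _)
  have h2 : ({d : ℤ | d.natAbs ≤ X ∧ (Squarefree d ∧ BadE f d)}.ncard : ℝ) ≤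
      ({d : ℤ | d.natAbs ≤ X ∧ (Squarefree d ∧ BadD f d)}.ncard : ℝ) +
        ({d : ℤ | Squarefree d ∧ InS S d}.ncard : ℝ) := by exact_mod_cast h1
  have h3 := one_le_X hX
  have h4 := H X hX
  have h5 : (0 : ℝ) ≤ ({d : ℤ | Squarefree d ∧ InS S d}.ncard : ℝ) := Nat.cast_nonneg _
  nlinarith

/-! ### All integers `d` -/

/-- the scaled polynomials -/
noncomputable def scl (f : K → ℤ[X]) (b : ℕ) : K → ℤ[X] := fun k => scaleRoots (f k) ((b : ℤ) ^ 2)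

omit [Fintype K] in
lemma hom_scl (f : K → ℤ[X]) (b : ℕ) (k : K) (u v : ℚ) :
    hom (scl f b k) u v = hom (f k) u ((b : ℚ) ^ 2 * v) := by
  unfold hom scl
  rw [natDegree_scaleRoots]
  refine Finset.sum_congr rfl fun i _ => ?_
  rw [coeff_scaleRoots, mul_pow]
  push_cast
  ring

omit [Fintype K] in
lemma scl_adm (f : K → ℤ[X]) (hf : Adm f) {b : ℕ} (hb : b ≠ 0) : Adm (scl f b) := by
  obtain ⟨h0, hco, ⟨j0, hj0⟩, hNS⟩ := hf
  have hb' : (b : ℤ) ≠ 0 := by exact_mod_cast hb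
  have hf0 : ∀ k, f k ≠ 0 := fun k h => h0 k (by rw [h, coeff_zero])
  have hlc : ∀ k, (f k).leadingCoeff ≠ 0 := fun k => leadingCoeff_ne_zero.2 (hf0 k)
  have hc0 : ∀ k, (scl f b k).coeff 0 = (f k).coeff 0 * ((b : ℤ) ^ (f k).natDegree) ^ 2 := by
    intro k
    unfold scl
    rw [coeff_scaleRoots, Nat.sub_zero]
    ring
  have hdeg : ∀ k, (scl f b k).natDegree = (f k).natDegree := fun k => natDegree_scaleRoots _ _
  have hl : ∀ k, (scl f b k).leadingCoeff = (f k).leadingCoeff := fun k => leadingCoeff_scaleRoots _ _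
  refine ⟨fun k => ?_, fun k l hkl => ?_, ⟨j0, by rw [hdeg]; exact hj0⟩, ?_⟩
  · rw [hc0]
    exact mul_ne_zero (h0 k) (pow_ne_zero _ (pow_ne_zero _ hb'))
  · unfold scl
    rw [map_scaleRoots _ _ _ (by simpa using hlc k), map_scaleRoots _ _ _ (by simpa using hlc l)]
    refine isCoprime_scaleRoots _ _ _ ?_ (hco k l hkl)
    rw [isUnit_iff_ne_zero]
    simpa using hb
  · rcases hNS with ⟨k, hk, hns⟩ | ⟨i, j, hi, hj, hns⟩
    · left
      refine ⟨k, by rw [hdeg]; exact hk, fun h => hns ?_⟩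
      rw [hl, hc0, ← mul_assoc] at h
      exact sq_cancel (pow_ne_zero _ hb') h
    · right
      refine ⟨i, j, by rw [hdeg]; exact hi, by rw [hdeg]; exact hj, fun h => hns ?_⟩
      rw [hl, hc0, hl, hc0] at h
      apply sq_cancel (t := (b : ℤ) ^ (f i).natDegree * (b : ℤ) ^ (f j).natDegree)
        (mul_ne_zero (pow_ne_zero _ hb') (pow_ne_zero _ hb'))
      convert h using 1
      ring

omit [Fintype K] in
lemma ev_scl (f : K → ℤ[X]) {b : ℕ} (hb : b ≠ 0) (k : K) (s : ℚ) :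
    ev (scl f b k) s = ((b : ℚ) ^ 2) ^ (f k).natDegree * ev (f k) (s / (b : ℚ) ^ 2) := by
  have hb' : ((b : ℚ) ^ 2) ≠ 0 := pow_ne_zero _ (by exact_mod_cast hb)
  have h1 := hom_scl f b k s 1
  rw [hom_ev _ _ _ one_ne_zero, mul_one, hom_ev _ _ _ hb', one_pow, one_mul, div_one] at h1
  exact h1

omit [Fintype K] in
lemma const_scl (f : K → ℤ[X]) {b : ℕ} (hb : b ≠ 0) (s : ℚ) :
    Const (scl f b) s ↔ Const f (s / (b : ℚ) ^ 2) := by
  have hb0 : (b : ℚ) ≠ 0 := by exact_mod_cast hb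
  unfold Const
  refine or_congr (forall_congr' fun k => ?_) (forall_congr' fun k => ?_)
  · rw [ev_scl f hb, ← sq_mul_iff (a := ((f k).leadingCoeff : ℚ) *
      (s / (b : ℚ) ^ 2) ^ (f k).natDegree * ev (f k) (s / (b : ℚ) ^ 2))
      (r := ((b : ℚ) ^ 2) ^ (f k).natDegree) (by positivity)]
    have : ((scl f b k).leadingCoeff : ℚ) * s ^ (scl f b k).natDegree *
      (((b : ℚ) ^ 2) ^ (f k).natDegree * ev (f k) (s / (b : ℚ) ^ 2)) =
      ((f k).leadingCoeff : ℚ) * (s / (b : ℚ) ^ 2) ^ (f k).natDegree *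
        ev (f k) (s / (b : ℚ) ^ 2) * (((b : ℚ) ^ 2) ^ (f k).natDegree) ^ 2 := by
      unfold scl
      rw [leadingCoeff_scaleRoots, natDegree_scaleRoots, div_pow]
      field_simp
    rw [this]
  · rw [ev_scl f hb, ← sq_mul_iff (a := ((f k).coeff 0 : ℚ) * ev (f k) (s / (b : ℚ) ^ 2))
      (r := ((b : ℚ) ^ 2) ^ (f k).natDegree) (by positivity)]
    have : ((scl f b k).coeff 0 : ℚ) * (((b : ℚ) ^ 2) ^ (f k).natDegree *
        ev (f k) (s / (b : ℚ) ^ 2)) = ((f k).coeff 0 : ℚ) *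
        ev (f k) (s / (b : ℚ) ^ 2) * (((b : ℚ) ^ 2) ^ (f k).natDegree) ^ 2 := by
      unfold scl
      rw [coeff_scaleRoots, Nat.sub_zero]
      push_cast
      ring
    rw [this]

lemma badE_scl (f : K → ℤ[X]) (b : ℕ) (a : ℤ) (h : BadE f (a * (b : ℤ) ^ 2)) : BadE (scl f b) a := by
  obtain ⟨m, hm, hm2, x, y, hx, hxy⟩ := h
  refine ⟨m, hm, hm2, x, y, hx, ?_⟩
  rw [hxy]
  congr 1
  refine Finset.prod_congr rfl fun k _ => ?_
  rw [hom_scl]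
  push_cast
  rw [mul_comm]

omit [Fintype K] in
lemma scl_fin (f : K → ℤ[X]) {b : ℕ} (hb : b ≠ 0) (hfin : {s : ℚ | s ≠ 0 ∧ Const f s}.Finite) :
    {s : ℚ | s ≠ 0 ∧ Const (scl f b) s}.Finite := by
  have hb0 : (b : ℚ) ≠ 0 := by exact_mod_cast hb
  refine (hfin.image (fun s => s * (b : ℚ) ^ 2)).subset ?_
  rintro s ⟨hs, hc⟩
  refine ⟨s / (b : ℚ) ^ 2, ⟨div_ne_zero hs (pow_ne_zero _ hb0), (const_scl f hb s).1 hc⟩, ?_⟩
  field_simp

/-- integers divisible by a large square -/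
lemma big_squares (B X : ℕ) (hB : 1 ≤ B) :
    ({d : ℤ | d.natAbs ≤ X ∧ d ≠ 0 ∧ ∃ b : ℕ, B < b ∧ (b : ℤ) ^ 2 ∣ d}.ncard : ℝ) ≤
      2 * X * (B : ℝ)⁻¹ := by
  have hsub : {d : ℤ | d.natAbs ≤ X ∧ d ≠ 0 ∧ ∃ b : ℕ, B < b ∧ (b : ℤ) ^ 2 ∣ d} ⊆
      (((Finset.Ioc B X).biUnion (fun b => ((Finset.Icc (-((X / b ^ 2 : ℕ) : ℤ)) ((X / b ^ 2 : ℕ) : ℤ)).erase 0).image
        (fun e => (b : ℤ) ^ 2 * e)) : Finset ℤ) : Set ℤ) := by
    rintro d ⟨hdX, hd0, b, hb, e, he⟩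
    rw [Finset.coe_biUnion, Set.mem_iUnion₂]
    have he0 : e ≠ 0 := by
      rintro rfl
      rw [mul_zero] at he
      exact hd0 he
    have hb1 : 1 ≤ b := by omega
    have h1 : b ^ 2 * e.natAbs ≤ X := by
      refine le_trans (le_of_eq ?_) hdX
      rw [he, Int.natAbs_mul, Int.natAbs_pow, Int.natAbs_natCast]
    have h2 : 1 ≤ e.natAbs := Int.natAbs_pos.2 he0
    have h3 : b ≤ X := by nlinarith
    have h4 : e.natAbs ≤ X / b ^ 2 := by
      rw [Nat.le_div_iff_mul_le (by positivity), mul_comm]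
      exact h1
    refine ⟨b, ?_, ?_⟩
    · rw [Finset.mem_coe, Finset.mem_Ioc]
      exact ⟨hb, h3⟩
    · rw [Finset.mem_coe, Finset.mem_image]
      refine ⟨e, ?_, he.symm⟩
      rw [Finset.mem_erase, Finset.mem_Icc]
      refine ⟨he0, ?_, ?_⟩ <;> omega
  have h1 := Set.ncard_le_ncard hsub (Finset.finite_toSet _)
  rw [Set.ncard_coe_finset] at h1
  have h2 : ∀ b ∈ Finset.Ioc B X, (((Finset.Icc (-((X / b ^ 2 : ℕ) : ℤ)) ((X / b ^ 2 : ℕ) : ℤ)).erase 0).image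
        (fun e => (b : ℤ) ^ 2 * e)).card ≤ 2 * (X / b ^ 2) := by
    intro b _
    refine Finset.card_image_le.trans ?_
    generalize X / b ^ 2 = n
    rw [Finset.card_erase_of_mem (by rw [Finset.mem_Icc]; constructor <;> omega), Int.card_Icc]
    omega
  have h3 : ({d : ℤ | d.natAbs ≤ X ∧ d ≠ 0 ∧ ∃ b : ℕ, B < b ∧ (b : ℤ) ^ 2 ∣ d}.ncard : ℝ) ≤
      ∑ b ∈ Finset.Ioc B X, (2 * (X : ℝ)) * ((b : ℝ) ^ 2)⁻¹ := by
    have h4 := h1.trans (Finset.card_biUnion_le.trans (Finset.sum_le_sum h2))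
    have h5 : ({d : ℤ | d.natAbs ≤ X ∧ d ≠ 0 ∧ ∃ b : ℕ, B < b ∧ (b : ℤ) ^ 2 ∣ d}.ncard : ℝ) ≤
      ∑ b ∈ Finset.Ioc B X, ((2 * (X / b ^ 2) : ℕ) : ℝ) := by exact_mod_cast h4
    refine h5.trans (Finset.sum_le_sum fun b hb => ?_)
    push_cast
    have h6 : ((X / b ^ 2 : ℕ) : ℝ) ≤ (X : ℝ) / ((b ^ 2 : ℕ) : ℝ) := Nat.cast_div_le
    push_cast at h6
    rw [mul_assoc, ← div_eq_mul_inv]
    linarith
  refine h3.trans ?_
  rw [← Finset.mul_sum]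
  apply mul_le_mul_of_nonneg_left _ (by positivity)
  rcases le_or_gt B X with hBX | hBX
  · refine (sum_Ioc_inv_sq_le_sub (by omega) hBX).trans ?_
    have : (0 : ℝ) ≤ (X : ℝ)⁻¹ := by positivity
    linarith
  · rw [Finset.Ioc_eq_empty (by omega), Finset.sum_empty]
    positivity

/-- **all integers `d`**: density zero -/
theorem mainC (f : K → ℤ[X]) (hf : Adm f) (hfin : {s : ℚ | s ≠ 0 ∧ Const f s}.Finite) :
    Tendsto (fun X : ℕ => ({d : ℤ | d.natAbs ≤ X ∧ d ≠ 0 ∧ BadE f d}.ncard : ℝ) / X) atTop (𝓝 0) := by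
  have hb : ∀ b : ℕ, ∃ C : ℝ, 0 ≤ C ∧ (b ≠ 0 → ∀ X : ℕ, 3 ≤ X →
      ({d : ℤ | d.natAbs ≤ X ∧ (Squarefree d ∧ BadE (scl f b) d)}.ncard : ℝ) ≤
        C * X * (Real.log X) ^ (-(1 / 5 : ℝ))) := by
    intro b
    by_cases hb : b = 0
    · exact ⟨0, le_rfl, fun h => absurd hb h⟩
    · obtain ⟨C, hC, H⟩ := mainB (scl f b) (scl_adm f hf hb) (scl_fin f hb hfin)
      exact ⟨C, hC, fun _ => H⟩
  choose Cb hCb0 hCb using hb
  have hlog : Tendsto (fun X : ℕ => (Real.log X) ^ (-(1 / 5 : ℝ))) atTop (𝓝 0) :=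
    (tendsto_rpow_neg_atTop (by norm_num : (0 : ℝ) < 1 / 5)).comp
      (Real.tendsto_log_atTop.comp tendsto_natCast_atTop_atTop)
  rw [Metric.tendsto_atTop]
  intro ε hε
  obtain ⟨B, hB⟩ := exists_nat_gt (4 / ε)
  have hB0 : (0 : ℝ) < B := lt_trans (by positivity) hB
  have hB1 : 1 ≤ B := by exact_mod_cast hB0
  have hlog2 : Tendsto (fun X : ℕ => (∑ b ∈ Finset.Icc 1 B, Cb b) * (Real.log X) ^ (-(1 / 5 : ℝ)))
      atTop (𝓝 0) := by
    have := hlog.const_mul (∑ b ∈ Finset.Icc 1 B, Cb b)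
    rwa [mul_zero] at this
  obtain ⟨X0, hX0⟩ := (Metric.tendsto_atTop.1 hlog2) (ε / 2) (by positivity)
  refine ⟨max X0 3, fun X hX => ?_⟩
  have hXX0 : X0 ≤ X := (le_max_left _ _).trans hX
  have hX3 : 3 ≤ X := (le_max_right _ _).trans hX
  have hXpos : (0 : ℝ) < X := by
    have : (3 : ℝ) ≤ X := by exact_mod_cast hX3
    linarith
  have h1 := hX0 X hXX0
  rw [Real.dist_eq, sub_zero] at h1 ⊢
  have h1 := (le_abs_self _).trans_lt h1
  rw [abs_of_nonneg (by positivity), div_lt_iff₀ hXpos]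
  have hsub : {d : ℤ | d.natAbs ≤ X ∧ d ≠ 0 ∧ BadE f d} ⊆
      (⋃ b ∈ Finset.Icc 1 B, (fun a : ℤ => a * (b : ℤ) ^ 2) ''
        {d : ℤ | d.natAbs ≤ X ∧ (Squarefree d ∧ BadE (scl f b) d)}) ∪
      {d : ℤ | d.natAbs ≤ X ∧ d ≠ 0 ∧ ∃ b : ℕ, B < b ∧ (b : ℤ) ^ 2 ∣ d} := by
    rintro d ⟨hdX, hd0, hbad⟩
    obtain ⟨s, t, ht, hs, hst⟩ := exists_sqf d hd0
    have hst' : d = s * ((t.natAbs : ℕ) : ℤ) ^ 2 := by
      rw [hst, Int.natAbs_sq]
    rcases le_or_gt t.natAbs B with h | h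
    · left
      rw [Set.mem_iUnion₂]
      refine ⟨t.natAbs, Finset.mem_Icc.2 ⟨Int.natAbs_pos.2 ht, h⟩, s, ⟨?_, hs, ?_⟩, hst'.symm⟩
      · refine le_trans ?_ hdX
        rw [hst, Int.natAbs_mul, Int.natAbs_pow]
        exact Nat.le_mul_of_pos_right _ (pow_pos (Int.natAbs_pos.2 ht) 2)
      · rw [hst'] at hbad
        exact badE_scl f _ s hbad
    · right
      exact ⟨hdX, hd0, t.natAbs, h, ⟨s, by rw [hst']; ring⟩⟩
  have hfinI : ∀ P : ℤ → Prop, {d : ℤ | d.natAbs ≤ X ∧ P d}.Finite := by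
    intro P
    apply (Set.finite_Icc (-(X : ℤ)) X).subset
    intro d hd
    have h1 : d.natAbs ≤ X := hd.1
    rw [Set.mem_Icc]
    omega
  have hfinU : (⋃ b ∈ Finset.Icc 1 B, (fun a : ℤ => a * (b : ℤ) ^ 2) ''
        {d : ℤ | d.natAbs ≤ X ∧ (Squarefree d ∧ BadE (scl f b) d)}).Finite :=
    Set.Finite.biUnion (Finset.finite_toSet _) fun b _ => (hfinI _).image _
  have h2 := (Set.ncard_le_ncard hsub (hfinU.union (hfinI _))).trans (Set.ncard_union_le _ _)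
  have h3 : (⋃ b ∈ Finset.Icc 1 B, (fun a : ℤ => a * (b : ℤ) ^ 2) ''
        {d : ℤ | d.natAbs ≤ X ∧ (Squarefree d ∧ BadE (scl f b) d)}).ncard ≤
      ∑ b ∈ Finset.Icc 1 B, {d : ℤ | d.natAbs ≤ X ∧ (Squarefree d ∧ BadE (scl f b) d)}.ncard := by
    have key : ∀ T : Finset ℕ, (⋃ b ∈ T, (fun a : ℤ => a * (b : ℤ) ^ 2) ''
        {d : ℤ | d.natAbs ≤ X ∧ (Squarefree d ∧ BadE (scl f b) d)}).ncard ≤
      ∑ b ∈ T, {d : ℤ | d.natAbs ≤ X ∧ (Squarefree d ∧ BadE (scl f b) d)}.ncard := by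
      intro T
      induction T using Finset.induction_on with
      | empty => simp
      | insert b T hb ih =>
        rw [Finset.sum_insert hb, Finset.set_biUnion_insert]
        exact (Set.ncard_union_le _ _).trans (add_le_add (Set.ncard_image_le (hfinI _)) ih)
    exact key _
  have h4 : ({d : ℤ | d.natAbs ≤ X ∧ d ≠ 0 ∧ BadE f d}.ncard : ℝ) ≤
      (∑ b ∈ Finset.Icc 1 B, Cb b) * (Real.log X) ^ (-(1 / 5 : ℝ)) * X + 2 * X * (B : ℝ)⁻¹ := by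
    have h5 : ({d : ℤ | d.natAbs ≤ X ∧ d ≠ 0 ∧ BadE f d}.ncard : ℝ) ≤
        ∑ b ∈ Finset.Icc 1 B, ({d : ℤ | d.natAbs ≤ X ∧ (Squarefree d ∧ BadE (scl f b) d)}.ncard : ℝ) +
        ({d : ℤ | d.natAbs ≤ X ∧ d ≠ 0 ∧ ∃ b : ℕ, B < b ∧ (b : ℤ) ^ 2 ∣ d}.ncard : ℝ) := by
      exact_mod_cast h2.trans (add_le_add h3 le_rfl)
    refine h5.trans (add_le_add ?_ (big_squares B X hB1))
    rw [Finset.sum_mul, Finset.sum_mul]
    refine Finset.sum_le_sum fun b hb => ?_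
    have hb1 := (Finset.mem_Icc.1 hb).1
    refine (hCb b (by omega) X hX3).trans (le_of_eq (by ring))
  refine h4.trans_lt ?_
  have h6 : 2 * (X : ℝ) * (B : ℝ)⁻¹ < ε / 2 * X := by
    have h7 : 2 * (B : ℝ)⁻¹ < ε / 2 := by
      rw [← div_eq_mul_inv, div_lt_iff₀ hB0]
      rw [div_lt_iff₀ hε] at hB
      linarith
    nlinarith
  nlinarith

end Pool.Agent.W2helper7.HT
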