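import Pool.Agent.W2helper7.HT.Main

/-!
# Twists of higher order: the number of the twists with a point of nonconstant type
-/

set_option autoImplicit false

namespace Pool.Agent.W2helper7.HT

open Finset Filter Polynomial Pool.Agent.W262.RK Pool.Agent.W262.TW

open scoped Classical

variable {K : Type} [Fintype K]

lemma sq_of_mul_sq {a t : ℤ} (h : IsSquare a) : IsSquare (a * t ^ 2) := by
  obtain ⟨b, rfl⟩ := h
  exact ⟨b * t, by ring⟩

lemma sq_cancel {a t : ℤ} (ht : t ≠ 0) (h : IsSquare (a * t ^ 2)) : IsSquare a := by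
  rw [← Rat.isSquare_intCast_iff] at h ⊢
  push_cast at h
  exact (sq_mul_iff (by exact_mod_cast ht)).1 h

/-- the hypotheses: nonzero constant terms, pairwise coprime, a factor of odd degree, and the
condition on the square classes -/
structure Adm (f : K → ℤ[X]) : Prop where
  h0 : ∀ k, (f k).coeff 0 ≠ 0
  hco : ∀ k l, k ≠ l → IsCoprime ((f k).map (Int.castRingHom ℚ)) ((f l).map (Int.castRingHom ℚ))
  hodd : ∃ k, Odd (f k).natDegree
  hNS : (∃ k, Even (f k).natDegree ∧ ¬ IsSquare ((f k).leadingCoeff * (f k).coeff 0)) ∨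
    ∃ i j, Odd (f i).natDegree ∧ Odd (f j).natDegree ∧
      ¬ IsSquare ((f i).leadingCoeff * (f i).coeff 0 * ((f j).leadingCoeff * (f j).coeff 0))

theorem mainA (f : K → ℤ[X]) (hf : Adm f) : ∃ C : ℝ, 0 ≤ C ∧ ∀ X : ℕ, 3 ≤ X →
    ({d : ℤ | d.natAbs ≤ X ∧ (Squarefree d ∧ BadD f d)}.ncard : ℝ) ≤
      C * X * (Real.log X) ^ (-(1 / 5 : ℝ)) := by
  obtain ⟨h0, hco, ⟨j0, hj0⟩, hNS⟩ := hf
  have hf0 : ∀ k, f k ≠ 0 := fun k h => h0 k (by rw [h, coeff_zero])
  have hlc : ∀ k, (f k).leadingCoeff ≠ 0 := fun k => leadingCoeff_ne_zero.2 (hf0 k)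
  obtain ⟨z0, hz0⟩ := red f h0 hco
  obtain ⟨z, hz⟩ : ∃ z : ℕ, z = max 2 z0 + ∑ k, (f k).leadingCoeff.natAbs +
    ∑ k, ((f k).coeff 0).natAbs := ⟨_, rfl⟩
  have hz2 : 2 ≤ z := by omega
  have hzz0 : z0 ≤ z := by omega
  have hlcp : ∀ k, ∀ p : ℕ, p.Prime → (p : ℤ) ∣ (f k).leadingCoeff → p ≤ z := by
    intro k p hp hd
    by_contra hcon
    have := Finset.single_le_sum (f := fun k => (f k).leadingCoeff.natAbs) (fun _ _ => Nat.zero_le _)
      (mem_univ k)
    exact not_dvd_of_lt (hlc k) (by omega) hd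
  have h0p : ∀ k, ∀ p : ℕ, p.Prime → (p : ℤ) ∣ (f k).coeff 0 → p ≤ z := by
    intro k p hp hd
    by_contra hcon
    have := Finset.single_le_sum (f := fun k => ((f k).coeff 0).natAbs) (fun _ _ => Nat.zero_le _)
      (mem_univ k)
    exact not_dvd_of_lt (h0 k) (by omega) hd
  obtain ⟨e, he⟩ : ∃ e : K → ℕ, e = fun k => (f k).natDegree % 2 := ⟨_, rfl⟩
  have hek : ∀ k, (f k).natDegree % 2 = e k := fun k => by rw [he]
  have he1 : ∀ k, e k ≤ 1 := fun k => by rw [← hek]; omega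
  obtain ⟨A, hA⟩ : ∃ A : (K → ℤ) → K → ℤ, A = fun c k => (f k).leadingCoeff * c k := ⟨_, rfl⟩
  obtain ⟨B, hB⟩ : ∃ B : ℤ → (K → ℤ) → K → ℤ, B = fun κ c k => (f k).coeff 0 * c k * κ ^ e k :=
    ⟨_, rfl⟩
  have hEp : ∀ a ∈ EE z, ∀ p : ℕ, p.Prime → (p : ℤ) ∣ a → p ≤ z :=
    fun a ha p hp h => Pool.Agent.W460.TW.EE_prime ha p hp h
  have hE0 : ∀ a ∈ EE z, a ≠ 0 := fun a ha => (Pool.Agent.W554.TW.EE_abs ha).2
  -- the number of the pairs
  have hcount : ∀ κ ∈ EE z, ∀ c ∈ Fintype.piFinset (fun _ : K => EE z), ∃ C : ℝ, 0 ≤ C ∧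
      ∀ᶠ X : ℕ in atTop, ((GS z X e (A c) (B κ c)).card : ℝ) ≤
        C * X * (Real.log X) ^ (-(1 / 5 : ℝ)) := by
    intro κ hκ c hc
    rw [Fintype.mem_piFinset] at hc
    refine count z hz2 e he1 (A c) (B κ c) ?_ ?_ j0 (by rw [← hek]; exact Nat.odd_iff.1 hj0) ?_
    · intro k p hp hd
      rw [hA] at hd
      rcases (Nat.prime_iff_prime_int.1 hp).dvd_or_dvd hd with h | h
      · exact hlcp k p hp h
      · exact hEp _ (hc k) p hp h
    · intro k p hp hd
      rw [hB] at hd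
      rcases (Nat.prime_iff_prime_int.1 hp).dvd_or_dvd hd with h | h
      · rcases (Nat.prime_iff_prime_int.1 hp).dvd_or_dvd h with h | h
        · exact h0p k p hp h
        · exact hEp _ (hc k) p hp h
      · exact hEp _ hκ p hp ((Nat.prime_iff_prime_int.1 hp).dvd_of_dvd_pow h)
    · by_contra hcon
      push Not at hcon
      obtain ⟨⟨a1, a2⟩, b1, b2⟩ := hcon
      rcases hNS with ⟨k, hk, hns⟩ | ⟨i, j, hi, hj, hns⟩
      · have hk' : e k = 0 := by rw [← hek]; exact Nat.even_iff.1 hk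
        apply hns
        have h1 := a1 k hk'
        have h2 := b1 k hk'
        rw [hA] at h1
        rw [hB] at h2
        simp only [hk', pow_zero, mul_one] at h1 h2
        apply sq_cancel (hE0 _ (hc k))
        have h3 := h1.mul h2
        rwa [show (f k).leadingCoeff * c k * ((f k).coeff 0 * c k) =
          (f k).leadingCoeff * (f k).coeff 0 * (c k) ^ 2 by ring] at h3
      · have hi' : e i = 1 := by rw [← hek]; exact Nat.odd_iff.1 hi
        have hj' : e j = 1 := by rw [← hek]; exact Nat.odd_iff.1 hj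
        apply hns
        have h1 := a2 i j hi' hj'
        have h2 := b2 i j hi' hj'
        rw [hA] at h1
        rw [hB] at h2
        simp only [hi', hj', pow_one] at h1 h2
        apply sq_cancel (t := c i * c j * κ) (mul_ne_zero (mul_ne_zero (hE0 _ (hc i)) (hE0 _ (hc j)))
          (hE0 _ hκ))
        have h3 := h1.mul h2
        rwa [show (f i).leadingCoeff * c i * ((f j).leadingCoeff * c j) *
          ((f i).coeff 0 * c i * κ * ((f j).coeff 0 * c j * κ)) =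
          (f i).leadingCoeff * (f i).coeff 0 * ((f j).leadingCoeff * (f j).coeff 0) *
            (c i * c j * κ) ^ 2 by ring] at h3
  have hkey : ∀ q : ℤ × (K → ℤ), ∃ C : ℝ, 0 ≤ C ∧
      (q ∈ (EE z) ×ˢ (Fintype.piFinset (fun _ : K => EE z)) → ∀ᶠ X : ℕ in atTop,
        ((GS z X e (A q.2) (B q.1 q.2)).card : ℝ) ≤ C * X * (Real.log X) ^ (-(1 / 5 : ℝ))) := by
    intro q
    by_cases hq : q ∈ (EE z) ×ˢ (Fintype.piFinset (fun _ : K => EE z))
    · have hq' := Finset.mem_product.1 hq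
      obtain ⟨C, hC, H⟩ := hcount q.1 hq'.1 q.2 hq'.2
      exact ⟨C, hC, fun _ => H⟩
    · exact ⟨0, le_rfl, fun h => absurd h hq⟩
  choose Cq hCq0 hCq using hkey
  refine all_of_ev (fun d => Squarefree d ∧ BadD f d)
    (∑ q ∈ (EE z) ×ˢ (Fintype.piFinset (fun _ : K => EE z)), Cq q)
    (Finset.sum_nonneg fun q _ => hCq0 q) ?_
  have hall : ∀ᶠ X : ℕ in atTop, ∀ q ∈ (EE z) ×ˢ (Fintype.piFinset (fun _ : K => EE z)),
      ((GS z X e (A q.2) (B q.1 q.2)).card : ℝ) ≤ Cq q * X * (Real.log X) ^ (-(1 / 5 : ℝ)) := by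
    rw [Filter.eventually_all_finset]
    exact fun q hq => hCq q hq
  filter_upwards [hall] with X hX
  have hsub : {d : ℤ | d.natAbs ≤ X ∧ (Squarefree d ∧ BadD f d)} ⊆
      ((((EE z) ×ˢ (Fintype.piFinset (fun _ : K => EE z))).biUnion (fun q =>
        (GS z X e (A q.2) (B q.1 q.2)).image (fun D => q.1 * (D.1 : ℤ) * (D.2 : ℤ))) : Finset ℤ)
        : Set ℤ) := by
    rintro d ⟨hdX, hd, m, hm, hm2, x, y, hxy, hbad⟩
    have hxy' := hxy
    obtain ⟨hx, hy, -⟩ := hxy'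
    obtain ⟨Y, hY0, hY⟩ := integral f hm hxy
    have hcopXW : IsCoprime x.num (x.den : ℤ) := by
      rw [Int.isCoprime_iff_gcd_eq_one]
      exact x.reduced
    obtain ⟨κ, hκ, c, hc, D1, D2, hD1, hD2, hcop, hdd, t, ht, hF, hc2, hc1⟩ :=
      hz0 z hzz0 m hm2 hm d x.num x.den Y hd hcopXW hY0 hY
    rw [Finset.coe_biUnion, Set.mem_iUnion₂]
    refine ⟨(κ, c), ?_, ?_⟩
    · rw [Finset.mem_coe, Finset.mem_product]
      exact ⟨hκ, Fintype.mem_piFinset.2 hc⟩
    rw [Finset.mem_coe, Finset.mem_image]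
    refine ⟨(D1, D2), ?_, hdd.symm⟩
    have hD10 : D1 ≠ 0 := hD1.1.ne_zero
    have hD20 : D2 ≠ 0 := hD2.1.ne_zero
    have hDX : D1 * D2 ≤ X := by
      refine le_trans ?_ hdX
      rw [hdd, Int.natAbs_mul, Int.natAbs_mul, Int.natAbs_natCast, Int.natAbs_natCast, mul_assoc]
      exact Nat.le_mul_of_pos_left _ (Int.natAbs_pos.mpr (hE0 κ hκ))
    -- from integral to rational forms
    have hWF : ∀ k, hom (f k) (x ^ m) (d : ℚ) * (((x.den : ℚ) ^ (m / 2)) ^ (f k).natDegree) ^ 2 =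
        (c k : ℚ) * (D1 : ℚ) ^ e k * (t k : ℚ) ^ 2 := by
      intro k
      have h1 := hF k
      rw [hek k] at h1
      have h2 := congrArg (fun a : ℤ => (a : ℚ)) h1
      have h3 := Pool.Agent.W975.TW.hom_map (Int.castRingHom ℚ) (f k) (x.num ^ m)
        (d * (x.den : ℤ) ^ m)
      rw [eq_intCast, eq_intCast, eq_intCast] at h3
      rw [h3] at h2
      push_cast at h2
      rw [← h2]
      have h4 := Pool.Agent.W975.TW.hom_smul (f k) ((x.den : ℚ) ^ m) (x ^ m) (d : ℚ)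
      have h5 : (x.den : ℚ) ^ m * x ^ m = (x.num : ℚ) ^ m := by
        rw [← mul_pow, mul_comm, Rat.mul_den_eq_num]
      rw [h5, mul_comm _ (d : ℚ)] at h4
      rw [h4]
      obtain ⟨n, hn⟩ := hm
      have h6 : m / 2 = n := by omega
      rw [h6, hn]
      ring
    have hW0 : (x.den : ℚ) ≠ 0 := by exact_mod_cast x.den_nz
    have hcast : ∀ a : ℤ, IsSquare a → IsSquare (a : ℚ) := fun a h => by
      rw [Rat.isSquare_intCast_iff]; exact h
    rw [const_iff f hm hd.ne_zero hx, not_or] at hbad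
    push Not at hbad
    obtain ⟨⟨k1, hk1⟩, k2, hk2⟩ := hbad
    rw [mem_GS]
    refine ⟨⟨Finset.mem_Icc.2 ⟨Nat.one_le_iff_ne_zero.2 hD10, ?_⟩,
      Finset.mem_Icc.2 ⟨Nat.one_le_iff_ne_zero.2 hD20, ?_⟩⟩, hD1, hD2, hcop, hDX, ?_, ?_, ?_, ?_⟩
    · exact (Nat.le_mul_of_pos_right _ (Nat.pos_of_ne_zero hD20)).trans hDX
    · exact (Nat.le_mul_of_pos_left _ (Nat.pos_of_ne_zero hD10)).trans hDX
    · intro p hp k
      have := hc2 p hp k
      rw [hek k] at this
      rw [hA]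
      exact this
    · intro p hp k
      have := hc1 p hp k
      rw [hek k] at this
      rw [hB]
      exact this
    · refine ⟨k1, fun hsq => hk1 ?_⟩
      rw [hA] at hsq
      simp only at hsq
      have h1 := hcast _ (sq_of_mul_sq (t := t k1) hsq)
      push_cast at h1
      rw [← sq_mul_iff (r := ((x.den : ℚ) ^ (m / 2)) ^ (f k1).natDegree)
        (pow_ne_zero _ (pow_ne_zero _ hW0)), mul_assoc, hWF k1]
      rwa [show ((f k1).leadingCoeff : ℚ) * ((c k1 : ℚ) * (D1 : ℚ) ^ e k1 * (t k1 : ℚ) ^ 2) =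
        ((f k1).leadingCoeff : ℚ) * c k1 * (D1 : ℚ) ^ e k1 * (t k1 : ℚ) ^ 2 by ring]
    · refine ⟨k2, fun hsq => hk2 ?_⟩
      rw [hB] at hsq
      simp only at hsq
      have h1 := hcast _ hsq
      push_cast at h1
      obtain ⟨h, hh⟩ : ∃ h, h = (f k2).natDegree / 2 := ⟨_, rfl⟩
      have hnhe : (f k2).natDegree = 2 * h + e k2 := by rw [← hek]; omega
      rw [← sq_mul_iff (r := ((x.den : ℚ) ^ (m / 2)) ^ (f k2).natDegree)
        (pow_ne_zero _ (pow_ne_zero _ hW0)), mul_assoc, hWF k2]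
      have h2 : ((f k2).coeff 0 : ℚ) * (d : ℚ) ^ (f k2).natDegree *
          ((c k2 : ℚ) * (D1 : ℚ) ^ e k2 * (t k2 : ℚ) ^ 2) =
          ((f k2).coeff 0 : ℚ) * c k2 * (κ : ℚ) ^ e k2 * (D2 : ℚ) ^ e k2 *
            ((d : ℚ) ^ h * (D1 : ℚ) ^ e k2 * t k2) ^ 2 := by
        rw [hnhe, pow_add, pow_mul]
        have h3 : (d : ℚ) ^ e k2 = (κ : ℚ) ^ e k2 * (D1 : ℚ) ^ e k2 * (D2 : ℚ) ^ e k2 := by
          rw [← mul_pow, ← mul_pow, hdd]
          push_cast
          ring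
        rw [h3]
        ring
      rw [h2, sq_mul_iff]
      · exact h1
      · refine mul_ne_zero (mul_ne_zero (pow_ne_zero _ ?_) (pow_ne_zero _ ?_)) ?_
        · exact_mod_cast hd.ne_zero
        · exact_mod_cast hD10
        · exact_mod_cast ht k2
  have hcard := Set.ncard_le_ncard hsub (Finset.finite_toSet _)
  rw [Set.ncard_coe_finset] at hcard
  have hcard2 := hcard.trans (Finset.card_biUnion_le.trans
    (Finset.sum_le_sum fun q _ => Finset.card_image_le))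
  calc ({d : ℤ | d.natAbs ≤ X ∧ (Squarefree d ∧ BadD f d)}.ncard : ℝ)
      ≤ ∑ q ∈ (EE z) ×ˢ (Fintype.piFinset (fun _ : K => EE z)),
        ((GS z X e (A q.2) (B q.1 q.2)).card : ℝ) := by exact_mod_cast hcard2
    _ ≤ ∑ q ∈ (EE z) ×ˢ (Fintype.piFinset (fun _ : K => EE z)),
        Cq q * X * (Real.log X) ^ (-(1 / 5 : ℝ)) := Finset.sum_le_sum hX
    _ = _ := by rw [← Finset.sum_mul, ← Finset.sum_mul]

end Pool.Agent.W2helper7.HT
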