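import Pool.Agent.W2helper7.HT.Fin

/-!
# Twists of higher order: four linear factors and Fermat's theorem
-/

set_option autoImplicit false

namespace Pool.Agent.W2helper7.HT

open Finset Filter Polynomial Topology Pool.Agent.W262.RK Pool.Agent.W262.TW

open scoped Classical

variable {K : Type} [Fintype K]

lemma ev_lin (c : ℤ) (s : ℚ) : ev (X - C c) s = s - c := by
  unfold ev
  rw [eval₂_sub, eval₂_X, eval₂_C, eq_intCast]

lemma coeff_lin (c : ℤ) : (X - C c : ℤ[X]).coeff 0 = -c := by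
  rw [coeff_sub, coeff_X_zero, coeff_C_zero, zero_sub]

/-- the four linear factors -/
def Four (f : K → ℤ[X]) (a : ℤ) : Prop :=
  (∃ k, f k = X - C a) ∧ (∃ k, f k = X - C (2 * a)) ∧ (∃ k, f k = X - C (3 * a)) ∧
    ∃ k, f k = X - C (6 * a)

omit [Fintype K] in
lemma four_const {f : K → ℤ[X]} {a : ℤ} (ha : a ≠ 0) (h : Four f a) {s : ℚ} (hs : Const f s) :
    s = 0 := by
  have ha' : (a : ℚ) ≠ 0 := by exact_mod_cast ha
  obtain ⟨⟨k1, h1⟩, ⟨k2, h2⟩, ⟨k3, h3⟩, ⟨k6, h6⟩⟩ := h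
  have e1 : ∀ c : ℤ, ∀ k, f k = X - C c →
      ((f k).leadingCoeff : ℚ) * s ^ (f k).natDegree * ev (f k) s = s * (s - c) := by
    intro c k hk
    rw [hk, leadingCoeff_X_sub_C, natDegree_X_sub_C, ev_lin]
    push_cast
    ring
  have e2 : ∀ c : ℤ, ∀ k, f k = X - C c →
      ((f k).coeff 0 : ℚ) * ev (f k) s = -c * (s - c) := by
    intro c k hk
    rw [hk, coeff_lin, ev_lin]
    push_cast
    ring
  rcases hs with hs | hs
  · obtain ⟨b, hb⟩ := hs k1
    obtain ⟨c, hc⟩ := hs k2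
    obtain ⟨d, hd⟩ := hs k3
    rw [e1 _ _ h1] at hb
    rw [e1 _ _ h2] at hc
    rw [e1 _ _ h3] at hd
    push_cast at hb hc hd
    have h := Pool.Agent.TH213.SP.four_squares_rat (a := s) (b := b) (c := c) (d := d)
      (by linear_combination -2 * hb + hc) (by linear_combination hb - 2 * hc + hd)
    have h5 : s * a = 0 := by linear_combination h - hb
    exact (mul_eq_zero.1 h5).resolve_right ha'
  · obtain ⟨b, hb⟩ := hs k6
    obtain ⟨c, hc⟩ := hs k3
    obtain ⟨d, hd⟩ := hs k2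
    rw [e2 _ _ h6] at hb
    rw [e2 _ _ h3] at hc
    rw [e2 _ _ h2] at hd
    push_cast at hb hc hd
    have h := Pool.Agent.TH213.SP.four_squares_rat (a := (a : ℚ)) (b := b / 6) (c := c / 3)
      (d := d / 2)
      (by linear_combination (-2 / 36) * hb + (1 / 9) * hc)
      (by linear_combination (1 / 36) * hb - (2 / 9) * hc + (1 / 4) * hd)
    have h5 : s * a = 0 := by linear_combination 6 * h - (1 / 6) * hb
    exact (mul_eq_zero.1 h5).resolve_right ha'

omit [Fintype K] in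
lemma four_adm {f : K → ℤ[X]} {a : ℤ} (ha : a ≠ 0) (h : Four f a) (h0 : ∀ k, (f k).coeff 0 ≠ 0)
    (hco : ∀ k l, k ≠ l → IsCoprime ((f k).map (Int.castRingHom ℚ)) ((f l).map (Int.castRingHom ℚ))) :
    Adm f := by
  obtain ⟨⟨k1, h1⟩, ⟨k2, h2⟩, -, -⟩ := h
  have o1 : Odd (f k1).natDegree := by rw [h1, natDegree_X_sub_C]; exact odd_one
  have o2 : Odd (f k2).natDegree := by rw [h2, natDegree_X_sub_C]; exact odd_one
  refine ⟨h0, hco, ⟨k1, o1⟩, Or.inr ⟨k1, k2, o1, o2, ?_⟩⟩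
  rw [h1, h2, leadingCoeff_X_sub_C, leadingCoeff_X_sub_C, coeff_lin, coeff_lin,
    show 1 * -a * (1 * -(2 * a)) = 2 * a ^ 2 by ring]
  intro hsq
  have h3 := sq_cancel ha hsq
  obtain ⟨r, hr⟩ := h3
  have h4 : r ≤ 1 := by nlinarith
  have h5 : -1 ≤ r := by nlinarith
  interval_cases r <;> omega

end Pool.Agent.W2helper7.HT
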