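import Pool.Agent.W2helper7.HT.Term

/-!
# Twists of higher order: counting pairs with conditions on the residue symbols
-/

set_option autoImplicit false

namespace Pool.Agent.W2helper7.HT

open Finset Filter Pool.Agent.W262.RK Pool.Agent.W262.TW
open Pool.Agent.W554.TW (mert size_log PS_prime jac_unit)

open scoped Classical

/-- pairs with two large members -/
noncomputable def c2 (z V X : ℕ) (a b q : ℤ) : Finset (ℕ × ℕ) :=
  ((Icc 1 X) ×ˢ (Icc 1 X)).filter (fun D => (Rg z D.1 ∧ V < D.1) ∧ (Rg z D.2 ∧ V < D.2) ∧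
    D.1.Coprime D.2 ∧ D.1 * D.2 ≤ X ∧
    (∀ p ∈ D.2.primeFactors, jacobiSym (a * D.1) p = 1 ∧ jacobiSym q p = 1) ∧
    (∀ p ∈ D.1.primeFactors, jacobiSym (b * D.2) p = 1))

/-- numbers whose prime factors `p` satisfy `(q / p) = 1` -/
noncomputable def c1 (z V Y : ℕ) (q : ℤ) : Finset ℕ :=
  (Icc 1 Y).filter (fun D => (Rg z D ∧ V < D) ∧ ∀ p ∈ D.primeFactors, jacobiSym q p = 1)

/-- the patterns, two variables -/
noncomputable def Θ2 (q : ℤ) : Bool → ℕ → Finset (Finset Bool)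
  | true => fun p => if jacobiSym q p = 1 then {∅} else ∅
  | false => fun _ => {∅}

/-- the patterns, one variable -/
noncomputable def Θ1 (q : ℤ) : Unit → ℕ → Finset (Finset Unit) :=
  fun _ p => if jacobiSym q p = 1 then {∅} else ∅

/-- the constants -/
def κ2 (a b : ℤ) : Bool → ℤ
  | false => a
  | true => b

lemma cnt_mem {K : Type} [Fintype K] [DecidableEq K] (z Y V : ℕ) (κ : K → ℤ)
    (Θ : K → ℕ → Finset (Finset K)) : ∃ S : Finset (K → ℕ), S.card = cnt z Y V κ Θ ∧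
      ∀ D, D ∈ S ↔ (∀ k, D k ∈ Icc 1 Y) ∧ (∀ i, Rg z (D i) ∧ V < D i) ∧
        (∀ i j, i ≠ j → (D i).Coprime (D j)) ∧ ∏ i, D i ≤ Y ∧
        ∀ i, ∀ p ∈ (D i).primeFactors, ngs (fun k => κ k * D k) i p ∈ Θ i p := by
  refine ⟨_, rfl, fun D => ?_⟩
  rw [Finset.mem_filter, Fintype.mem_piFinset]

lemma c2_le (z V X : ℕ) (a b q : ℤ) : (c2 z V X a b q).card ≤ cnt z X V (κ2 a b) (Θ2 q) := by
  obtain ⟨S, hS, hmem⟩ := cnt_mem z X V (κ2 a b) (Θ2 q)
  rw [← hS]
  refine Finset.card_le_card_of_injOn (fun D => fun t => if t = true then D.2 else D.1) ?_ ?_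
  · rintro ⟨D1, D2⟩ hD
    rw [Finset.mem_coe, c2, Finset.mem_filter, Finset.mem_product] at hD
    obtain ⟨⟨h1, h2⟩, h3, h4, h5, h6, h7, h8⟩ := hD
    simp only at h1 h2 h3 h4 h5 h6 h7 h8
    refine Finset.mem_coe.2 ((hmem _).2 ⟨?_, ?_, ?_, ?_, ?_⟩)
    · intro t; cases t
      · exact h1
      · exact h2
    · intro t; cases t
      · simpa using h3
      · simpa using h4
    · intro i j hij
      cases i <;> cases j
      · exact absurd rfl hij
      · simpa using h5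
      · simpa using h5.symm
      · exact absurd rfl hij
    · rw [Fintype.prod_bool]
      simp only [if_true, Bool.false_eq_true, if_false]
      rw [mul_comm]; exact h6
    · intro i
      cases i
      · intro p hp
        simp only [Bool.false_eq_true, if_false] at hp
        simp only [Θ2, Finset.mem_singleton, ngs]
        rw [Finset.filter_eq_empty_iff]
        rintro k - ⟨hk, hj⟩
        cases k
        · exact hk rfl
        · simp only [κ2, if_true] at hj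
          rw [h8 p hp] at hj
          norm_num at hj
      · intro p hp
        simp only [if_true] at hp
        obtain ⟨h9, h10⟩ := h7 p hp
        simp only [Θ2, h10, if_true, Finset.mem_singleton, ngs]
        rw [Finset.filter_eq_empty_iff]
        rintro k - ⟨hk, hj⟩
        cases k
        · simp only [κ2, Bool.false_eq_true, if_false] at hj
          rw [h9] at hj
          norm_num at hj
        · exact hk rfl
  · rintro ⟨D1, D2⟩ - ⟨E1, E2⟩ - h
    have h1 := congrFun h false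
    have h2 := congrFun h true
    simp only [Bool.false_eq_true, if_false, if_true] at h1 h2
    exact Prod.ext h1 h2

lemma c1_le (z V Y : ℕ) (q : ℤ) : (c1 z V Y q).card ≤ cnt z Y V (fun _ : Unit => 1) (Θ1 q) := by
  unfold cnt
  refine Finset.card_le_card_of_injOn (fun D => fun _ => D) ?_ ?_
  · intro D hD
    rw [Finset.mem_coe, c1, Finset.mem_filter] at hD
    obtain ⟨h1, h2, h3⟩ := hD
    refine Finset.mem_coe.2 (Finset.mem_filter.2 ⟨Fintype.mem_piFinset.2 fun _ => h1, fun _ => h2,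
      fun i j hij => absurd (Subsingleton.elim i j) hij, ?_, ?_⟩)
    · rw [Fintype.prod_unique]
      exact (Finset.mem_Icc.1 h1).2
    · intro i p hp
      simp only [Θ1, h3 p hp, if_true, Finset.mem_singleton, ngs]
      rw [Finset.filter_eq_empty_iff]
      rintro k - ⟨hk, hj⟩
      exact hk (Subsingleton.elim _ _)
  · intro D _ E _ h
    exact congrFun h ()

lemma one_le_ll (Y : ℕ) (hY : 3 ≤ Y) : 0 ≤ Real.log (Real.log (Y : ℝ)) := by
  apply Real.log_nonneg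
  rw [← Real.log_exp 1]
  apply Real.log_le_log (Real.exp_pos 1)
  have := Real.exp_one_lt_d9
  have h : (3 : ℝ) ≤ Y := by exact_mod_cast hY
  linarith

lemma ll_V (V : ℕ) : 0 ≤ Real.log (Real.log ((V : ℝ) + 3)) := by
  have := one_le_ll (V + 3) (by omega)
  push_cast at this
  exact this

/-- the weight of one condition -/
lemma wt (z : ℕ) (hz : 2 ≤ z) : ∃ C : ℝ, 0 ≤ C ∧ ∀ q : ℤ, ¬ IsSquare q → ∀ Y : ℕ, 3 ≤ Y →
    ∑ p ∈ PS z Y, (((if jacobiSym q p = 1 then ({∅} : Finset (Finset Unit)) else ∅).card : ℕ) : ℝ) / p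
      ≤ 1 / 2 * Real.log (Real.log Y) + C + 1 / 2 * Real.log (Real.log (q.natAbs + 3)) := by
  obtain ⟨C1, hC1, h1⟩ := mert
  obtain ⟨C2, h2⟩ := Pool.Agent.W578.TW.UBQ.ubq z hz
  refine ⟨1 / 2 * C1 + 1 / 2 * |C2|, by positivity, fun q hq Y hY => ?_⟩
  have h3 := h1 z Y hY
  have h4 := h2 q hq Y
  have h5 : ∑ p ∈ PS z Y, (((if jacobiSym q p = 1 then ({∅} : Finset (Finset Unit)) else ∅).card : ℕ) : ℝ) / p
      ≤ ∑ p ∈ PS z Y, (1 / 2 * ((1 : ℝ) / p) + 1 / 2 * (Jr q p / p)) := by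
    refine Finset.sum_le_sum fun p hp => ?_
    obtain ⟨hpp, -⟩ := PS_prime hp
    have hp0 : (0 : ℝ) < p := by exact_mod_cast hpp.pos
    have e : (1 / 2 * ((1 : ℝ) / p) + 1 / 2 * (Jr q p / p)) = ((1 + Jr q p) / 2) / p := by ring
    rw [e]
    apply div_le_div_of_nonneg_right _ hp0.le
    unfold Jr
    by_cases h : jacobiSym q p = 1
    · rw [if_pos h, h, Finset.card_singleton]
      norm_num
    · rw [if_neg h, Finset.card_empty]
      have h6 : (-1 : ℤ) ≤ jacobiSym q p := by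
        rcases jacobiSym.trichotomy q p with h' | h' | h' <;> rw [h'] <;> norm_num
      have h7 : (-1 : ℝ) ≤ ((jacobiSym q p : ℤ) : ℝ) := by exact_mod_cast h6
      push_cast
      linarith
  refine h5.trans ?_
  rw [Finset.sum_add_distrib, ← Finset.mul_sum, ← Finset.mul_sum]
  have := le_abs_self C2
  linarith

/-- numbers with restricted prime factors -/
theorem bound1 (z : ℕ) (hz : 2 ≤ z) (P : ℝ) (hP : 0 ≤ P) : ∃ C4 : ℝ, 0 ≤ C4 ∧
    ∀ C4' : ℝ, C4 ≤ C4' → ∃ B0 : ℕ, ∀ B : ℕ, B0 ≤ B → ∃ C : ℝ,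
    ∀ (Y V : ℕ) (q : ℤ), 3 ≤ Y → 1 ≤ Real.log (Y : ℝ) → 1 ≤ V → ¬ IsSquare q →
      (q.natAbs : ℝ) ≤ P * (V : ℝ) ^ 2 → (Real.log Y) ^ B ≤ V → (V : ℝ) ≤ (Real.log Y) ^ (B + 10) →
      ((c1 z V Y q).card : ℝ) ≤ C * Y * (Real.log Y) ^ (1 / 100 - 1 : ℝ) *
        Real.exp (ww C4' Y V) := by
  obtain ⟨Cw, hCw, h1⟩ := wt z hz
  obtain ⟨Cs, hCs, h2⟩ := size_log hP
  refine ⟨Cw + Cs + 1, by positivity, fun C4' hC4' => ?_⟩
  obtain ⟨B0, hB0⟩ := abs1_all Unit (1 / 100) (by norm_num)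
  refine ⟨B0, fun B hB => ?_⟩
  obtain ⟨C, hC⟩ := hB0 (B + 10)
  refine ⟨C, fun Y V q hY hlY hV hq hqP hV1 hV2 => ?_⟩
  have hll := one_le_ll Y hY
  have hlV := ll_V V
  have hw0 : 0 ≤ ww C4' Y V := by
    unfold ww
    have : 0 ≤ C4' := by linarith
    positivity
  refine le_trans (by exact_mod_cast c1_le z V Y q)
    (hC z Y V (fun _ => 1) (Θ1 q) (ww C4' Y V) hz hY ?_ hV2 hw0 ?_ ?_ ?_)
  · exact (pow_le_pow_right₀ hlY hB).trans hV1
  · intro k p hp hd
    exfalso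
    have h3 : p ∣ 1 := by exact_mod_cast hd
    exact hp.one_lt.ne' (Nat.dvd_one.1 h3)
  · intro i p
    unfold Θ1
    split_ifs
    · rw [Finset.singleton_subset_iff]; exact Finset.empty_mem_powerset _
    · exact Finset.empty_subset _
  · rw [Fintype.sum_unique, Fintype.card_unit, Nat.sub_self, pow_zero, mul_one]
    refine (h1 q hq Y hY).trans ?_
    have h3 := h2 V q hV hqP
    unfold ww
    nlinarith

/-- pairs of large numbers -/
theorem bound2 (z : ℕ) (hz : 2 ≤ z) (a b q : ℤ) (hq : ¬ IsSquare q)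
    (ha : ∀ p : ℕ, p.Prime → (p : ℤ) ∣ a → p ≤ z) (hb : ∀ p : ℕ, p.Prime → (p : ℤ) ∣ b → p ≤ z) :
    ∃ C4 : ℝ, 0 ≤ C4 ∧
    ∀ C4' : ℝ, C4 ≤ C4' → ∃ B0 : ℕ, ∀ B : ℕ, B0 ≤ B → ∃ C : ℝ,
    ∀ (Y V : ℕ), 3 ≤ Y → 1 ≤ Real.log (Y : ℝ) →
      (Real.log Y) ^ B ≤ V → (V : ℝ) ≤ (Real.log Y) ^ (B + 10) →
      ((c2 z V Y a b q).card : ℝ) ≤ C * Y * (Real.log Y) ^ (1 / 100 - 1 : ℝ) *
        Real.exp (ww C4' Y V) := by
  obtain ⟨Cw, hCw, h1⟩ := wt z hz
  obtain ⟨Cm, hCm, h2⟩ := mert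
  have hq3 := ll_V q.natAbs
  refine ⟨Cw + Cm + Real.log (Real.log ((q.natAbs : ℝ) + 3)), by positivity, fun C4' hC4' => ?_⟩
  obtain ⟨B0, hB0⟩ := abs1_all Bool (1 / 100) (by norm_num)
  refine ⟨B0, fun B hB => ?_⟩
  obtain ⟨C, hC⟩ := hB0 (B + 10)
  refine ⟨C, fun Y V hY hlY hV1 hV2 => ?_⟩
  have hll := one_le_ll Y hY
  have hlV := ll_V V
  have hC40 : 0 ≤ C4' := by linarith
  have hw0 : 0 ≤ ww C4' Y V := by
    unfold ww
    positivity
  refine le_trans (by exact_mod_cast c2_le z V Y a b q)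
    (hC z Y V (κ2 a b) (Θ2 q) (ww C4' Y V) hz hY ?_ hV2 hw0 ?_ ?_ ?_)
  · exact (pow_le_pow_right₀ hlY hB).trans hV1
  · intro k p hp hd
    cases k
    · exact ha p hp hd
    · exact hb p hp hd
  · intro i p
    cases i
    · simp only [Θ2]
      rw [Finset.singleton_subset_iff]; exact Finset.empty_mem_powerset _
    · simp only [Θ2]
      split_ifs
      · rw [Finset.singleton_subset_iff]; exact Finset.empty_mem_powerset _
      · exact Finset.empty_subset _
  · rw [Fintype.sum_bool, Fintype.card_bool]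
    have e1 : ∑ p ∈ PS z Y, (((Θ2 q true p).card : ℕ) : ℝ) / p =
        ∑ p ∈ PS z Y, (((if jacobiSym q p = 1 then ({∅} : Finset (Finset Unit)) else ∅).card : ℕ) : ℝ) / p := by
      refine Finset.sum_congr rfl fun p _ => ?_
      simp only [Θ2]
      split_ifs <;> simp
    have e2 : ∑ p ∈ PS z Y, (((Θ2 q false p).card : ℕ) : ℝ) / p = ∑ p ∈ PS z Y, (1 : ℝ) / p := by
      refine Finset.sum_congr rfl fun p _ => ?_
      simp [Θ2]
    rw [e1, e2]
    have h3 := h1 q hq Y hY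
    have h4 := h2 z Y hY
    unfold ww
    nlinarith

end Pool.Agent.W2helper7.HT
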