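import Pool.Agent.W2helper7.HT.Cnt

/-!
# Twists of higher order: the number of the pairs
-/

set_option autoImplicit false

namespace Pool.Agent.W2helper7.HT

open Finset Filter Pool.Agent.W262.RK Pool.Agent.W262.TW

open scoped Classical

variable {K : Type} [Fintype K]

/-- the pairs -/
noncomputable def GS (z X : ℕ) (e : K → ℕ) (A B : K → ℤ) : Finset (ℕ × ℕ) :=
  ((Icc 1 X) ×ˢ (Icc 1 X)).filter (fun D => Rg z D.1 ∧ Rg z D.2 ∧ D.1.Coprime D.2 ∧ D.1 * D.2 ≤ X ∧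
    (∀ p ∈ D.2.primeFactors, ∀ k, jacobiSym (A k * (D.1 : ℤ) ^ e k) p = 1) ∧
    (∀ p ∈ D.1.primeFactors, ∀ k, jacobiSym (B k * (D.2 : ℤ) ^ e k) p = 1) ∧
    (∃ k, ¬ IsSquare (A k * (D.1 : ℤ) ^ e k)) ∧ (∃ k, ¬ IsSquare (B k * (D.2 : ℤ) ^ e k)))

lemma mem_GS {z X : ℕ} {e : K → ℕ} {A B : K → ℤ} {D : ℕ × ℕ} : D ∈ GS z X e A B ↔
    (D.1 ∈ Icc 1 X ∧ D.2 ∈ Icc 1 X) ∧ Rg z D.1 ∧ Rg z D.2 ∧ D.1.Coprime D.2 ∧ D.1 * D.2 ≤ X ∧
    (∀ p ∈ D.2.primeFactors, ∀ k, jacobiSym (A k * (D.1 : ℤ) ^ e k) p = 1) ∧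
    (∀ p ∈ D.1.primeFactors, ∀ k, jacobiSym (B k * (D.2 : ℤ) ^ e k) p = 1) ∧
    (∃ k, ¬ IsSquare (A k * (D.1 : ℤ) ^ e k)) ∧ (∃ k, ¬ IsSquare (B k * (D.2 : ℤ) ^ e k)) := by
  unfold GS
  rw [Finset.mem_filter, Finset.mem_product]

lemma GS_swap (z X : ℕ) (e : K → ℕ) (A B : K → ℤ) :
    (GS z X e A B).card ≤ (GS z X e B A).card := by
  refine Finset.card_le_card_of_injOn Prod.swap ?_ (fun _ _ _ _ h => Prod.swap_injective h)
  intro D hD
  rw [Finset.mem_coe, mem_GS] at hD ⊢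
  obtain ⟨⟨h1, h2⟩, h3, h4, h5, h6, h7, h8, h9, h10⟩ := hD
  exact ⟨⟨h2, h1⟩, h4, h3, h5.symm, by rw [Prod.fst_swap, Prod.snd_swap, mul_comm]; exact h6,
    h8, h7, h10, h9⟩

/-- the part with a small first member -/
lemma part (z X V u : ℕ) (hu : 1 ≤ u) (e : K → ℕ) (A B : K → ℤ)
    (hne : ((GS z X e A B).filter (fun D => D.1 = u ∧ V < D.2)).Nonempty) :
    ∃ k, ¬ IsSquare (A k * (u : ℤ) ^ e k) ∧
      ((GS z X e A B).filter (fun D => D.1 = u ∧ V < D.2)).card ≤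
        (c1 z V (X / u) (A k * (u : ℤ) ^ e k)).card := by
  obtain ⟨D, hD⟩ := hne
  rw [Finset.mem_filter, mem_GS] at hD
  obtain ⟨⟨-, -, -, -, -, -, -, ⟨k, hk⟩, -⟩, h1, -⟩ := hD
  rw [h1] at hk
  refine ⟨k, hk, Finset.card_le_card_of_injOn Prod.snd ?_ ?_⟩
  · rintro ⟨D1, D2⟩ hE
    rw [Finset.mem_coe, Finset.mem_filter, mem_GS] at hE
    obtain ⟨⟨⟨-, h2⟩, -, h4, -, h6, h7, -, -, -⟩, h9, h10⟩ := hE
    simp only at h2 h4 h6 h7 h9 h10
    subst h9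
    rw [Finset.mem_coe, c1, Finset.mem_filter, Finset.mem_Icc]
    refine ⟨⟨(Finset.mem_Icc.1 h2).1, ?_⟩, ⟨h4, h10⟩, fun p hp => h7 p hp k⟩
    rw [Nat.le_div_iff_mul_le (by omega), mul_comm]
    exact h6
  · rintro ⟨D1, D2⟩ hE ⟨E1, E2⟩ hE' h
    rw [Finset.mem_coe, Finset.mem_filter] at hE hE'
    have h3 := hE.2.1
    have h4 := hE'.2.1
    simp only at h3 h4 h
    rw [h3, h4, h]

theorem count_half (z : ℕ) (hz : 2 ≤ z) (e : K → ℕ) (he : ∀ k, e k ≤ 1) (A B : K → ℤ)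
    (hA : ∀ k, ∀ p : ℕ, p.Prime → (p : ℤ) ∣ A k → p ≤ z)
    (hB : ∀ k, ∀ p : ℕ, p.Prime → (p : ℤ) ∣ B k → p ≤ z) (j0 : K) (hj0 : e j0 = 1)
    (q : ℤ) (hq : ¬ IsSquare q)
    (hq2 : ∀ X, ∀ D ∈ GS z X e A B, ∀ p ∈ D.2.primeFactors, jacobiSym q p = 1) :
    ∃ C : ℝ, 0 ≤ C ∧ ∀ᶠ X : ℕ in atTop,
      ((GS z X e A B).card : ℝ) ≤ C * X * (Real.log X) ^ (-(1 / 5 : ℝ)) := by
  obtain ⟨P, hP⟩ : ∃ P : ℝ, P = ∑ k, ((A k).natAbs : ℝ) + ∑ k, ((B k).natAbs : ℝ) := ⟨_, rfl⟩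
  have hP0 : 0 ≤ P := by rw [hP]; positivity
  have hPA : ∀ k, ((A k).natAbs : ℝ) ≤ P := by
    intro k
    have h1 : ((A k).natAbs : ℝ) ≤ ∑ k, ((A k).natAbs : ℝ) :=
      Finset.single_le_sum (f := fun k => ((A k).natAbs : ℝ)) (fun _ _ => by positivity) (mem_univ k)
    have h2 : 0 ≤ ∑ k, ((B k).natAbs : ℝ) := by positivity
    rw [hP]; linarith
  have hPB : ∀ k, ((B k).natAbs : ℝ) ≤ P := by
    intro k
    have h1 : ((B k).natAbs : ℝ) ≤ ∑ k, ((B k).natAbs : ℝ) :=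
      Finset.single_le_sum (f := fun k => ((B k).natAbs : ℝ)) (fun _ _ => by positivity) (mem_univ k)
    have h2 : 0 ≤ ∑ k, ((A k).natAbs : ℝ) := by positivity
    rw [hP]; linarith
  obtain ⟨Ca, hCa, H1⟩ := bound1 z hz P hP0
  obtain ⟨Cb, hCb, H2⟩ := bound2 z hz (A j0) (B j0) q hq (hA j0) (hB j0)
  obtain ⟨B1, H1⟩ := H1 (max Ca Cb) (le_max_left _ _)
  obtain ⟨B2, H2⟩ := H2 (max Ca Cb) (le_max_right _ _)
  obtain ⟨C1, H1⟩ := H1 (max B1 B2) (le_max_left _ _)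
  obtain ⟨C2, H2⟩ := H2 (max B1 B2) (le_max_right _ _)
  refine ⟨1 + 3 * |C2| + 6 * |C1|, by positivity, ?_⟩
  filter_upwards [term (max Ca Cb) (hCa.trans (le_max_left _ _)) (max B1 B2)] with X hX
  obtain ⟨hV1, hVX, hharm, hpow, hL1, hU⟩ := hX
  obtain ⟨V, hV⟩ : ∃ V : ℕ, V = Vf (max B1 B2) X := ⟨_, rfl⟩
  rw [← hV] at hV1 hVX hharm hU
  have hL0 : 0 < Real.log (X : ℝ) := by linarith
  have hV1' : (1 : ℝ) ≤ V := by exact_mod_cast hV1
  -- one small variable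
  have hone : ∀ (A' B' : K → ℤ), (∀ k, ((A' k).natAbs : ℝ) ≤ P) → ∀ u ∈ Icc 1 V,
      (((GS z X e A' B').filter (fun D => D.1 = u ∧ V < D.2)).card : ℝ) ≤
        3 * |C1| * X * (Real.log X) ^ (-(23 / 100) : ℝ) * ((u : ℕ) : ℝ)⁻¹ := by
    intro A' B' hA' u hu
    rw [Finset.mem_Icc] at hu
    rcases Finset.eq_empty_or_nonempty ((GS z X e A' B').filter (fun D => D.1 = u ∧ V < D.2)) with
      h | h
    · rw [h, Finset.card_empty]
      push_cast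
      positivity
    · obtain ⟨k, hk, hc⟩ := part z X V u hu.1 e A' B' h
      obtain ⟨h3, h4, h5, h6, -, h7⟩ := hU u hu.1 hu.2
      refine le_trans (by exact_mod_cast hc) (le_trans (H1 (X / u) V (A' k * (u : ℤ) ^ e k) h3 h4 hV1
        hk ?_ h5 h6) (h7 C1))
      rw [Int.natAbs_mul, Int.natAbs_pow, Int.natAbs_natCast]
      push_cast
      have h8 : (u : ℝ) ^ e k ≤ (V : ℝ) := by
        have h9 := he k
        have hu1 : (1 : ℝ) ≤ u := by exact_mod_cast hu.1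
        have hu2 : (u : ℝ) ≤ V := by exact_mod_cast hu.2
        interval_cases e k
        · simpa using hV1'
        · simpa using hu2
      calc ((A' k).natAbs : ℝ) * (u : ℝ) ^ e k ≤ P * V :=
            mul_le_mul (hA' k) h8 (by positivity) hP0
        _ ≤ P * (V : ℝ) ^ 2 := by
            apply mul_le_mul_of_nonneg_left _ hP0
            nlinarith
  have hsum : ∀ (A' B' : K → ℤ), (∀ k, ((A' k).natAbs : ℝ) ≤ P) →
      ∑ u ∈ Icc 1 V, (((GS z X e A' B').filter (fun D => D.1 = u ∧ V < D.2)).card : ℝ) ≤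
        3 * |C1| * (X * (Real.log X) ^ (-(1 / 5 : ℝ))) := by
    intro A' B' hA'
    calc _ ≤ ∑ u ∈ Icc 1 V, 3 * |C1| * X * (Real.log X) ^ (-(23 / 100) : ℝ) * ((u : ℕ) : ℝ)⁻¹ :=
          Finset.sum_le_sum fun u hu => hone A' B' hA' u hu
      _ = 3 * |C1| * X * (Real.log X) ^ (-(23 / 100) : ℝ) * ∑ u ∈ Icc 1 V, ((u : ℕ) : ℝ)⁻¹ := by
          rw [Finset.mul_sum]
      _ ≤ 3 * |C1| * X * (Real.log X) ^ (-(23 / 100) : ℝ) * (Real.log X) ^ (1 / 100 : ℝ) := by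
          apply mul_le_mul_of_nonneg_left hharm (by positivity)
      _ = 3 * |C1| * (X * (Real.log X) ^ (-(22 / 100) : ℝ)) := by
          rw [mul_assoc (3 * |C1| * X), ← Real.rpow_add hL0]
          norm_num
          ring
      _ ≤ _ := by
          apply mul_le_mul_of_nonneg_left _ (by positivity)
          exact mul_le_mul_of_nonneg_left hpow (by positivity)
  -- two large variables
  have htwo : ((c2 z V X (A j0) (B j0) q).card : ℝ) ≤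
      3 * |C2| * (X * (Real.log X) ^ (-(1 / 5 : ℝ))) := by
    obtain ⟨h3, h4, h5, h6, -, h7⟩ := hU 1 le_rfl hV1
    rw [Nat.div_one] at h3 h4 h5 h6 h7
    refine (H2 X V h3 h4 h5 h6).trans ((h7 C2).trans ?_)
    rw [Nat.cast_one, inv_one, mul_one, mul_assoc (3 * |C2|)]
    apply mul_le_mul_of_nonneg_left _ (by positivity)
    apply mul_le_mul_of_nonneg_left _ (by positivity)
    exact Real.rpow_le_rpow_of_exponent_le hL1 (by norm_num)
  -- the decomposition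
  have hdec : GS z X e A B ⊆ (Icc 1 V ×ˢ Icc 1 V) ∪ c2 z V X (A j0) (B j0) q ∪
      (Icc 1 V).biUnion (fun u => (GS z X e A B).filter (fun D => D.1 = u ∧ V < D.2)) ∪
      ((Icc 1 V).biUnion (fun u => (GS z X e B A).filter (fun D => D.1 = u ∧ V < D.2))).image
        Prod.swap := by
    intro D hD
    have hD' := mem_GS.1 hD
    obtain ⟨⟨h1, h2⟩, h3, h4, h5, h6, h7, h8, h9, h10⟩ := hD'
    rw [Finset.mem_Icc] at h1 h2
    rw [Finset.mem_union, Finset.mem_union, Finset.mem_union]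
    rcases le_or_gt D.1 V with ha | ha <;> rcases le_or_gt D.2 V with hb | hb
    · left; left; left
      rw [Finset.mem_product, Finset.mem_Icc, Finset.mem_Icc]
      exact ⟨⟨h1.1, ha⟩, ⟨h2.1, hb⟩⟩
    · left; right
      rw [Finset.mem_biUnion]
      exact ⟨D.1, Finset.mem_Icc.2 ⟨h1.1, ha⟩, Finset.mem_filter.2 ⟨hD, rfl, hb⟩⟩
    · right
      rw [Finset.mem_image]
      refine ⟨D.swap, ?_, Prod.swap_swap D⟩
      rw [Finset.mem_biUnion]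
      refine ⟨D.2, Finset.mem_Icc.2 ⟨h2.1, hb⟩, Finset.mem_filter.2 ⟨?_, rfl, ha⟩⟩
      rw [mem_GS]
      exact ⟨⟨Finset.mem_Icc.2 h2, Finset.mem_Icc.2 h1⟩, h4, h3, h5.symm,
        by rw [Prod.fst_swap, Prod.snd_swap, mul_comm]; exact h6, h8, h7, h10, h9⟩
    · left; left; right
      rw [c2, Finset.mem_filter, Finset.mem_product]
      refine ⟨⟨Finset.mem_Icc.2 h1, Finset.mem_Icc.2 h2⟩, ⟨h3, ha⟩, ⟨h4, hb⟩, h5, h6,
        fun p hp => ⟨?_, hq2 X D hD p hp⟩, fun p hp => ?_⟩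
      · have := h7 p hp j0
        rwa [hj0, pow_one] at this
      · have := h8 p hp j0
        rwa [hj0, pow_one] at this
  have hcard : (GS z X e A B).card ≤ V * V + (c2 z V X (A j0) (B j0) q).card +
      ∑ u ∈ Icc 1 V, ((GS z X e A B).filter (fun D => D.1 = u ∧ V < D.2)).card +
      ∑ u ∈ Icc 1 V, ((GS z X e B A).filter (fun D => D.1 = u ∧ V < D.2)).card := by
    refine (Finset.card_le_card hdec).trans ?_
    refine (Finset.card_union_le _ _).trans ?_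
    refine add_le_add ((Finset.card_union_le _ _).trans (add_le_add
      ((Finset.card_union_le _ _).trans (add_le_add ?_ le_rfl)) Finset.card_biUnion_le))
      (Finset.card_image_le.trans Finset.card_biUnion_le)
    rw [Finset.card_product, Nat.card_Icc, Nat.add_sub_cancel]
  have hcardR : ((GS z X e A B).card : ℝ) ≤ (V : ℝ) ^ 2 + (c2 z V X (A j0) (B j0) q).card +
      ∑ u ∈ Icc 1 V, (((GS z X e A B).filter (fun D => D.1 = u ∧ V < D.2)).card : ℝ) +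
      ∑ u ∈ Icc 1 V, (((GS z X e B A).filter (fun D => D.1 = u ∧ V < D.2)).card : ℝ) := by
    rw [sq]
    exact_mod_cast hcard
  have s1 := hsum A B hPA
  have s2 := hsum B A hPB
  calc _ ≤ _ := hcardR
    _ ≤ X * (Real.log X) ^ (-(1 / 5 : ℝ)) + 3 * |C2| * (X * (Real.log X) ^ (-(1 / 5 : ℝ))) +
        3 * |C1| * (X * (Real.log X) ^ (-(1 / 5 : ℝ))) +
        3 * |C1| * (X * (Real.log X) ^ (-(1 / 5 : ℝ))) := by
        linarith
    _ = _ := by ring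

/-- the nonsquare number from the conditions -/
lemma get_q (z : ℕ) (e : K → ℕ) (A B : K → ℤ)
    (h : (∃ k, e k = 0 ∧ ¬ IsSquare (A k)) ∨ ∃ i j, e i = 1 ∧ e j = 1 ∧ ¬ IsSquare (A i * A j)) :
    ∃ q : ℤ, ¬ IsSquare q ∧
      ∀ X, ∀ D ∈ GS z X e A B, ∀ p ∈ D.2.primeFactors, jacobiSym q p = 1 := by
  rcases h with ⟨k, hk, hns⟩ | ⟨i, j, hi, hj, hns⟩
  · refine ⟨A k, hns, fun X D hD p hp => ?_⟩
    obtain ⟨-, -, -, -, -, h7, -⟩ := mem_GS.1 hD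
    have := h7 p hp k
    rwa [hk, pow_zero, mul_one] at this
  · refine ⟨A i * A j, hns, fun X D hD p hp => ?_⟩
    obtain ⟨-, -, -, -, -, h7, -⟩ := mem_GS.1 hD
    have h1 := h7 p hp i
    have h2 := h7 p hp j
    rw [hi, pow_one, jacobiSym.mul_left] at h1
    rw [hj, pow_one, jacobiSym.mul_left] at h2
    have h3 : jacobiSym (D.1 : ℤ) p * jacobiSym (D.1 : ℤ) p = 1 := by
      rcases jacobiSym.trichotomy (D.1 : ℤ) p with h | h | h
      · rw [h, mul_zero] at h1; norm_num at h1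
      · rw [h]; norm_num
      · rw [h]; norm_num
    rw [jacobiSym.mul_left]
    calc jacobiSym (A i) p * jacobiSym (A j) p =
        (jacobiSym (A i) p * jacobiSym (D.1 : ℤ) p) * (jacobiSym (A j) p * jacobiSym (D.1 : ℤ) p) *
          (jacobiSym (D.1 : ℤ) p * jacobiSym (D.1 : ℤ) p) -
          (jacobiSym (A i) p * jacobiSym (A j) p) *
            ((jacobiSym (D.1 : ℤ) p * jacobiSym (D.1 : ℤ) p) ^ 2 - 1) := by ring
      _ = 1 := by rw [h1, h2, h3]; norm_num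

/-- **the number of the pairs** -/
theorem count (z : ℕ) (hz : 2 ≤ z) (e : K → ℕ) (he : ∀ k, e k ≤ 1) (A B : K → ℤ)
    (hA : ∀ k, ∀ p : ℕ, p.Prime → (p : ℤ) ∣ A k → p ≤ z)
    (hB : ∀ k, ∀ p : ℕ, p.Prime → (p : ℤ) ∣ B k → p ≤ z) (j0 : K) (hj0 : e j0 = 1)
    (h : ((∃ k, e k = 0 ∧ ¬ IsSquare (A k)) ∨ ∃ i j, e i = 1 ∧ e j = 1 ∧ ¬ IsSquare (A i * A j)) ∨
      ((∃ k, e k = 0 ∧ ¬ IsSquare (B k)) ∨ ∃ i j, e i = 1 ∧ e j = 1 ∧ ¬ IsSquare (B i * B j))) :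
    ∃ C : ℝ, 0 ≤ C ∧ ∀ᶠ X : ℕ in atTop,
      ((GS z X e A B).card : ℝ) ≤ C * X * (Real.log X) ^ (-(1 / 5 : ℝ)) := by
  rcases h with h | h
  · obtain ⟨q, hq, hq2⟩ := get_q z e A B h
    exact count_half z hz e he A B hA hB j0 hj0 q hq hq2
  · obtain ⟨q, hq, hq2⟩ := get_q z e B A h
    obtain ⟨C, hC, H⟩ := count_half z hz e he B A hB hA j0 hj0 q hq hq2
    refine ⟨C, hC, ?_⟩
    filter_upwards [H] with X hX
    refine le_trans ?_ hX
    exact_mod_cast GS_swap z X e A B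

end Pool.Agent.W2helper7.HT
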