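import Pool.Agent.W262.TW.Full

/-!
# Twists of higher order: the forms at one prime
-/

set_option autoImplicit false

namespace Pool.Agent.W2helper7.HT

open Finset Polynomial Pool.Agent.W262.RK Pool.Agent.W262.TW
open Pool.Agent.W975.TW (hom_map hom_smul hom_one hom_lc clear)

lemma bezout (f g : ℤ[X]) (hc : IsCoprime (f.map (Int.castRingHom ℚ)) (g.map (Int.castRingHom ℚ))) :
    ∃ (R : ℤ) (A B : ℤ[X]), R ≠ 0 ∧ A * f + B * g = C R := by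
  obtain ⟨a, b, hab⟩ := hc
  obtain ⟨m, A, hm, hA⟩ := clear a
  obtain ⟨m', B, hm', hB⟩ := clear b
  refine ⟨m * m', C m' * A, C m * B, mul_ne_zero hm hm', ?_⟩
  apply Polynomial.map_injective (Int.castRingHom ℚ) (Int.cast_injective)
  have e1 : ∀ t : ℤ, (C t : ℤ[X]).map (Int.castRingHom ℚ) = C (t : ℚ) := fun t => by
    rw [Polynomial.map_C]; rfl
  rw [Polynomial.map_add, Polynomial.map_mul, Polynomial.map_mul, Polynomial.map_mul,
    Polynomial.map_mul, hA, hB, e1, e1, e1, Int.cast_mul]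
  have : C ((m' : ℚ)) * (C (m : ℚ) * a) * f.map (Int.castRingHom ℚ) +
      C (m : ℚ) * (C (m' : ℚ) * b) * g.map (Int.castRingHom ℚ) =
      C ((m : ℚ) * m') * (a * f.map (Int.castRingHom ℚ) + b * g.map (Int.castRingHom ℚ)) := by
    rw [C_mul]; ring
  rw [this, hab, mul_one]

lemma hom_inf {R : Type*} [CommRing R] (f : ℤ[X]) (x : R) :
    hom f x 0 = (f.leadingCoeff : R) * x ^ f.natDegree := by
  have h := hom_smul f x 1 0
  rw [mul_one, mul_zero, hom_lc] at h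
  rw [h, mul_comm]

lemma hom_zero {R : Type*} [CommRing R] (f : ℤ[X]) (w : R) :
    hom f 0 w = (f.coeff 0 : R) * w ^ f.natDegree := by
  have h := hom_smul f w 0 1
  rw [mul_one, mul_zero, hom_one] at h
  rw [h, mul_comm]
  congr 1
  rw [eval₂_at_zero, eq_intCast]

lemma jac_congr {a b : ℤ} {p : ℕ} (h : (a : ZMod p) = b) : jacobiSym a p = jacobiSym b p :=
  jacobiSym.mod_left' ((ZMod.intCast_eq_intCast_iff a b p).1 h)

lemma jac_one_or {a : ℤ} {p : ℕ} (hp : p.Prime) (h : ¬ (p : ℤ) ∣ a) :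
    jacobiSym a p = 1 ∨ jacobiSym a p = -1 := by
  apply jacobiSym.eq_one_or_neg_one
  rw [Int.gcd_comm, ← Int.isCoprime_iff_gcd_eq_one]
  exact (Nat.prime_iff_prime_int.1 hp).coprime_iff_not_dvd.2 h

lemma jac_mul_self {a : ℤ} {p : ℕ} (hp : p.Prime) (h : ¬ (p : ℤ) ∣ a) :
    jacobiSym a p * jacobiSym a p = 1 := by
  rcases jac_one_or hp h with h | h <;> rw [h] <;> norm_num

lemma jac_pow_even {a : ℤ} {p : ℕ} (hp : p.Prime) (h : ¬ (p : ℤ) ∣ a) {m : ℕ} (hm : Even m) :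
    jacobiSym (a ^ m) p = 1 := by
  obtain ⟨r, rfl⟩ := hm
  rw [jacobiSym.pow_left, pow_add, ← mul_pow, jac_mul_self hp h, one_pow]

lemma pdvd_iff {p : ℕ} (a : ℤ) : (p : ℤ) ∣ a ↔ (a : ZMod p) = 0 :=
  (ZMod.intCast_zmod_eq_zero_iff_dvd a p).symm

variable {f g : ℤ[X]} {X W d : ℤ} {m p : ℕ}

/-- `p ∤ X`, `p ∣ d W` -/
lemma loc_inf (hp : p.Prime) (hm : m ≠ 0) (hX : ¬ (p : ℤ) ∣ X) (hdW : (p : ℤ) ∣ d * W)
    (hl : ¬ (p : ℤ) ∣ f.leadingCoeff) : ¬ (p : ℤ) ∣ hom f (X ^ m) (d * W ^ m) ∧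
      (Even m → jacobiSym (hom f (X ^ m) (d * W ^ m)) p = jacobiSym f.leadingCoeff p) := by
  have : Fact p.Prime := ⟨hp⟩
  have h0 : ((d * W ^ m : ℤ) : ZMod p) = 0 := by
    rw [← pdvd_iff]
    rcases (Nat.prime_iff_prime_int.1 hp).dvd_or_dvd hdW with h | h
    · exact Dvd.dvd.mul_right h _
    · exact Dvd.dvd.mul_left (dvd_pow h hm) _
  have h1 : ((hom f (X ^ m) (d * W ^ m) : ℤ) : ZMod p) =
      ((f.leadingCoeff * (X ^ m) ^ f.natDegree : ℤ) : ZMod p) := by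
    have h2 := hom_map (Int.castRingHom (ZMod p)) f (X ^ m) (d * W ^ m)
    rw [eq_intCast, eq_intCast, eq_intCast, h0, hom_inf] at h2
    rw [h2]
    push_cast
    ring
  have hXm : ¬ (p : ℤ) ∣ (X ^ m) ^ f.natDegree := fun h =>
    hX ((Nat.prime_iff_prime_int.1 hp).dvd_of_dvd_pow ((Nat.prime_iff_prime_int.1 hp).dvd_of_dvd_pow h))
  refine ⟨fun h => ?_, fun hev => ?_⟩
  · rw [pdvd_iff, h1, ← pdvd_iff] at h
    exact ((Nat.prime_iff_prime_int.1 hp).dvd_or_dvd h).elim hl hXm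
  · rw [jac_congr h1, jacobiSym.mul_left, ← pow_mul, jac_pow_even hp hX (hev.mul_right _), mul_one]

/-- `p ∣ X`, `p ∤ d W` -/
lemma loc_zero (hp : p.Prime) (hm : m ≠ 0) (hX : (p : ℤ) ∣ X) (hd : ¬ (p : ℤ) ∣ d)
    (hW : ¬ (p : ℤ) ∣ W) (h0 : ¬ (p : ℤ) ∣ f.coeff 0) : ¬ (p : ℤ) ∣ hom f (X ^ m) (d * W ^ m) := by
  have : Fact p.Prime := ⟨hp⟩
  have hX0 : ((X ^ m : ℤ) : ZMod p) = 0 := by
    rw [← pdvd_iff]
    exact dvd_pow hX hm
  have h1 : ((hom f (X ^ m) (d * W ^ m) : ℤ) : ZMod p) =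
      ((f.coeff 0 * (d * W ^ m) ^ f.natDegree : ℤ) : ZMod p) := by
    have h2 := hom_map (Int.castRingHom (ZMod p)) f (X ^ m) (d * W ^ m)
    rw [eq_intCast, eq_intCast, eq_intCast, hX0, hom_zero] at h2
    rw [h2]
    push_cast
    ring
  have hpi := Nat.prime_iff_prime_int.1 hp
  intro h
  rw [pdvd_iff, h1, ← pdvd_iff] at h
  rcases hpi.dvd_or_dvd h with h | h
  · exact h0 h
  · rcases hpi.dvd_or_dvd (hpi.dvd_of_dvd_pow h) with h | h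
    · exact hd h
    · exact hW (hpi.dvd_of_dvd_pow h)

/-- `p ∣ X`, `p ∣ d`, `p² ∤ d` -/
lemma loc_both (hp : p.Prime) (hm : 2 ≤ m) (hev : Even m) (hX : (p : ℤ) ∣ X) {d' : ℤ}
    (hd' : ¬ (p : ℤ) ∣ d') (hW : ¬ (p : ℤ) ∣ W) (h0 : ¬ (p : ℤ) ∣ f.coeff 0) :
    ∃ G : ℤ, hom f (X ^ m) (p * d' * W ^ m) = (p : ℤ) ^ f.natDegree * G ∧ ¬ (p : ℤ) ∣ G ∧
      jacobiSym G p = jacobiSym (f.coeff 0) p * jacobiSym d' p ^ f.natDegree := by
  have : Fact p.Prime := ⟨hp⟩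
  have hpi := Nat.prime_iff_prime_int.1 hp
  obtain ⟨x, rfl⟩ := hX
  obtain ⟨n, rfl⟩ : ∃ n, m = n + 2 := ⟨m - 2, by omega⟩
  refine ⟨hom f ((p : ℤ) * ((p : ℤ) ^ n * x ^ (n + 2))) (d' * W ^ (n + 2)), ?_, ?_⟩
  · rw [← hom_smul]
    congr 1
    · ring
    · ring
  have hX0 : (((p : ℤ) * ((p : ℤ) ^ n * x ^ (n + 2)) : ℤ) : ZMod p) = 0 := by
    rw [← pdvd_iff]
    exact dvd_mul_right _ _
  have h1 : ((hom f ((p : ℤ) * ((p : ℤ) ^ n * x ^ (n + 2))) (d' * W ^ (n + 2)) : ℤ) : ZMod p) =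
      ((f.coeff 0 * (d' * W ^ (n + 2)) ^ f.natDegree : ℤ) : ZMod p) := by
    have h2 := hom_map (Int.castRingHom (ZMod p)) f ((p : ℤ) * ((p : ℤ) ^ n * x ^ (n + 2)))
      (d' * W ^ (n + 2))
    rw [eq_intCast, eq_intCast, eq_intCast, hX0, hom_zero] at h2
    rw [h2]
    push_cast
    ring
  refine ⟨fun h => ?_, ?_⟩
  · rw [pdvd_iff, h1, ← pdvd_iff] at h
    rcases hpi.dvd_or_dvd h with h | h
    · exact h0 h
    · rcases hpi.dvd_or_dvd (hpi.dvd_of_dvd_pow h) with h | h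
      · exact hd' h
      · exact hW (hpi.dvd_of_dvd_pow h)
  · rw [jac_congr h1, jacobiSym.mul_left, jacobiSym.pow_left, jacobiSym.mul_left,
      jac_pow_even hp hW hev, mul_one]

/-- `p ∤ d W`: no common zeros -/
lemma loc_cop (hp : p.Prime) (hd : ¬ (p : ℤ) ∣ d) (hW : ¬ (p : ℤ) ∣ W) {R : ℤ} {A B : ℤ[X]}
    (hR : ¬ (p : ℤ) ∣ R) (hAB : A * f + B * g = C R)
    (h1 : (p : ℤ) ∣ hom f (X ^ m) (d * W ^ m)) (h2 : (p : ℤ) ∣ hom g (X ^ m) (d * W ^ m)) : False := by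
  have : Fact p.Prime := ⟨hp⟩
  have hv : (((d * W ^ m : ℤ)) : ZMod p) ≠ 0 := by
    rw [Ne, ← pdvd_iff]
    intro h
    rcases (Nat.prime_iff_prime_int.1 hp).dvd_or_dvd h with h | h
    · exact hd h
    · exact hW ((Nat.prime_iff_prime_int.1 hp).dvd_of_dvd_pow h)
  have key : ∀ h : ℤ[X], (p : ℤ) ∣ hom h (X ^ m) (d * W ^ m) →
      h.eval₂ (Int.castRingHom (ZMod p)) (((X ^ m : ℤ) : ZMod p) / ((d * W ^ m : ℤ) : ZMod p)) = 0 := by
    intro h hh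
    rw [pdvd_iff] at hh
    have h3 := hom_map (Int.castRingHom (ZMod p)) h (X ^ m) (d * W ^ m)
    rw [eq_intCast, hh, eq_intCast, eq_intCast] at h3
    have h4 := hom_smul h ((d * W ^ m : ℤ) : ZMod p)
      (((X ^ m : ℤ) : ZMod p) / ((d * W ^ m : ℤ) : ZMod p)) 1
    rw [mul_div_cancel₀ _ hv, mul_one, ← h3, hom_one] at h4
    exact (mul_eq_zero.1 h4.symm).resolve_left (pow_ne_zero _ hv)
  have h5 := congrArg (eval₂ (Int.castRingHom (ZMod p))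
    (((X ^ m : ℤ) : ZMod p) / ((d * W ^ m : ℤ) : ZMod p))) hAB
  rw [eval₂_add, eval₂_mul, eval₂_mul, key f h1, key g h2, mul_zero, mul_zero, add_zero, eval₂_C,
    eq_intCast] at h5
  exact hR ((pdvd_iff R).2 h5.symm)

end Pool.Agent.W2helper7.HT
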