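import Pool.Agent.W2helper7.HT.Loc

/-!
# Twists of higher order: from points to pairs
-/

set_option autoImplicit false

namespace Pool.Agent.W2helper7.HT

open Finset Polynomial Pool.Agent.W262.RK Pool.Agent.W262.TW
open Pool.Agent.W311.TW (Dz dvd_Dz Dz_sqf Dz_pos Dz_le exists_EE exists_sqf)

/-- the valuation -/
def vv (p : ℕ) (a : ℤ) : ℕ := a.natAbs.factorization p

section

variable {p : ℕ} {a b : ℤ}

lemma vv_mul (ha : a ≠ 0) (hb : b ≠ 0) : vv p (a * b) = vv p a + vv p b := by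
  unfold vv
  rw [Int.natAbs_mul, Nat.factorization_mul (Int.natAbs_ne_zero.2 ha) (Int.natAbs_ne_zero.2 hb)]
  rfl

lemma vv_pow (n : ℕ) : vv p (a ^ n) = n * vv p a := by
  unfold vv
  rw [Int.natAbs_pow, Nat.factorization_pow]
  rfl

lemma vv_zero (h : ¬ (p : ℤ) ∣ a) : vv p a = 0 := by
  unfold vv
  apply Nat.factorization_eq_zero_of_not_dvd
  rwa [← Int.natCast_dvd]

lemma vv_self (hp : p.Prime) : vv p (p : ℤ) = 1 := by
  unfold vv
  rw [Int.natAbs_natCast, hp.factorization_self]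

lemma vv_pos (hp : p.Prime) (ha : a ≠ 0) (h : (p : ℤ) ∣ a) : 0 < vv p a := by
  unfold vv
  exact hp.factorization_pos_of_dvd (Int.natAbs_ne_zero.2 ha) (Int.natCast_dvd.1 h)

lemma vv_sqf (hs : Squarefree a) : vv p a ≤ 1 :=
  (Int.squarefree_natAbs.2 hs).natFactorization_le_one p

lemma sqf_iff (hp : p.Prime) {F s T : ℤ} (hT : T ≠ 0) (hs : Squarefree s) (h : F = s * T ^ 2) :
    (p : ℤ) ∣ s ↔ Odd (vv p F) := by
  have h1 : vv p F = vv p s + 2 * vv p T := by
    rw [h, vv_mul hs.ne_zero (pow_ne_zero 2 hT), vv_pow]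
  have h2 := vv_sqf (p := p) hs
  constructor
  · intro hd
    have h3 := vv_pos hp hs.ne_zero hd
    rw [h1, show vv p s = 1 by omega]
    exact ⟨vv p T, by ring⟩
  · intro ho
    by_contra hd
    rw [h1, vv_zero hd, zero_add] at ho
    exact (Nat.not_odd_iff_even.2 (even_two_mul _)) ho

end

lemma Rg_dvd {z a b : ℕ} (hb : Rg z b) (h : a ∣ b) : Rg z a :=
  ⟨hb.1.squarefree_of_dvd h, fun p hp hd => hb.2 p hp (hd.trans h)⟩

lemma not_dvd_of_lt {p : ℕ} {a : ℤ} (ha : a ≠ 0) (h : a.natAbs < p) : ¬ (p : ℤ) ∣ a := by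
  intro hd
  have := Nat.le_of_dvd (Int.natAbs_pos.2 ha) (Int.natCast_dvd.1 hd)
  omega

variable {K : Type} [Fintype K] [DecidableEq K]

theorem red (f : K → ℤ[X]) (h0 : ∀ k, (f k).coeff 0 ≠ 0)
    (hco : ∀ k l, k ≠ l → IsCoprime ((f k).map (Int.castRingHom ℚ)) ((f l).map (Int.castRingHom ℚ))) :
    ∃ z0 : ℕ, ∀ z, z0 ≤ z → ∀ m : ℕ, 2 ≤ m → Even m → ∀ d X W Y : ℤ, Squarefree d → IsCoprime X W → Y ≠ 0 →
      Y ^ 2 = X * W * ∏ k, hom (f k) (X ^ m) (d * W ^ m) →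
      ∃ κ ∈ EE z, ∃ c : K → ℤ, (∀ k, c k ∈ EE z) ∧ ∃ D1 D2 : ℕ, Rg z D1 ∧ Rg z D2 ∧
        D1.Coprime D2 ∧ d = κ * D1 * D2 ∧ ∃ t : K → ℤ, (∀ k, t k ≠ 0) ∧
        (∀ k, hom (f k) (X ^ m) (d * W ^ m) = c k * (D1 : ℤ) ^ ((f k).natDegree % 2) * (t k) ^ 2) ∧
        (∀ p ∈ D2.primeFactors, ∀ k,
          jacobiSym ((f k).leadingCoeff * c k * (D1 : ℤ) ^ ((f k).natDegree % 2)) p = 1) ∧
        (∀ p ∈ D1.primeFactors, ∀ k, jacobiSym ((f k).coeff 0 * c k * κ ^ ((f k).natDegree % 2) *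
          (D2 : ℤ) ^ ((f k).natDegree % 2)) p = 1) := by
  have hf0 : ∀ k, f k ≠ 0 := fun k h => h0 k (by rw [h, coeff_zero])
  have hlc : ∀ k, (f k).leadingCoeff ≠ 0 := fun k => leadingCoeff_ne_zero.2 (hf0 k)
  have hbez : ∀ k l, ∃ (R : ℤ) (A B : ℤ[X]), R ≠ 0 ∧ (k ≠ l → A * f k + B * f l = C R) := by
    intro k l
    by_cases hkl : k = l
    · exact ⟨1, 0, 0, one_ne_zero, fun h => absurd hkl h⟩
    · obtain ⟨R, A, B, h1, h2⟩ := bezout (f k) (f l) (hco k l hkl)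
      exact ⟨R, A, B, h1, fun _ => h2⟩
  choose R A B hR hAB using hbez
  refine ⟨∑ k, (f k).leadingCoeff.natAbs + ∑ k, ((f k).coeff 0).natAbs + ∑ k, ∑ l, (R k l).natAbs,
    fun z hz m hm hev d X W Y hd hXW hY hprod => ?_⟩
  -- large primes divide none of the constants
  have hlcp : ∀ p : ℕ, z < p → ∀ k, ¬ (p : ℤ) ∣ (f k).leadingCoeff := by
    intro p hp k
    apply not_dvd_of_lt (hlc k)
    have := Finset.single_le_sum (f := fun k => (f k).leadingCoeff.natAbs) (fun _ _ => Nat.zero_le _)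
      (mem_univ k)
    omega
  have h0p : ∀ p : ℕ, z < p → ∀ k, ¬ (p : ℤ) ∣ (f k).coeff 0 := by
    intro p hp k
    apply not_dvd_of_lt (h0 k)
    have := Finset.single_le_sum (f := fun k => ((f k).coeff 0).natAbs) (fun _ _ => Nat.zero_le _)
      (mem_univ k)
    omega
  have hRp : ∀ p : ℕ, z < p → ∀ k l, ¬ (p : ℤ) ∣ R k l := by
    intro p hp k l
    apply not_dvd_of_lt (hR k l)
    have h1 := Finset.single_le_sum (f := fun l => (R k l).natAbs) (fun _ _ => Nat.zero_le _)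
      (mem_univ l)
    have h2 := Finset.single_le_sum (f := fun k => ∑ l, (R k l).natAbs) (fun _ _ => Nat.zero_le _)
      (mem_univ k)
    omega
  have hd0 : d ≠ 0 := hd.ne_zero
  have hYne : X * W * ∏ k, hom (f k) (X ^ m) (d * W ^ m) ≠ 0 := by
    rw [← hprod]; exact pow_ne_zero 2 hY
  have hXW0 : X * W ≠ 0 := fun h => hYne (by rw [h, zero_mul])
  have hX0 : X ≠ 0 := fun h => hXW0 (by rw [h, zero_mul])
  have hW0 : W ≠ 0 := fun h => hXW0 (by rw [h, mul_zero])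
  obtain ⟨F, hF⟩ : ∃ F : K → ℤ, F = fun k => hom (f k) (X ^ m) (d * W ^ m) := ⟨_, rfl⟩
  have hFk : ∀ k, hom (f k) (X ^ m) (d * W ^ m) = F k := fun k => by rw [hF]
  simp only [hFk] at hprod hYne ⊢
  have hFne : ∀ k, F k ≠ 0 := by
    intro k hk
    exact hYne (by rw [Finset.prod_eq_zero (mem_univ k) hk, mul_zero])
  -- decompositions
  choose s T hT hs hsT using fun k => exists_sqf (F k) (hFne k)
  choose c hc hcs using fun k => exists_EE (z := z) (hs k)
  obtain ⟨κ, hκ, hκd⟩ := exists_EE (z := z) hd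
  obtain ⟨D, hD⟩ : ∃ D : ℕ, D = Dz z d := ⟨_, rfl⟩
  have hDrg : Rg z D := by rw [hD]; exact Dz_sqf hd
  obtain ⟨D1, hD1⟩ : ∃ D1 : ℕ, D1 = Nat.gcd D X.natAbs := ⟨_, rfl⟩
  have hD1D : D1 ∣ D := by rw [hD1]; exact Nat.gcd_dvd_left _ _
  obtain ⟨D2, hD2⟩ := hD1D
  have hD1rg : Rg z D1 := Rg_dvd hDrg ⟨D2, hD2⟩
  have hD2rg : Rg z D2 := Rg_dvd hDrg ⟨D1, by rw [hD2, mul_comm]⟩
  have hcop : D1.Coprime D2 := by
    have := hDrg.1
    rw [hD2] at this
    exact Nat.coprime_of_squarefree_mul this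
  have hdd : d = κ * D1 * D2 := by
    rw [hκd, ← hD, hD2]; push_cast; ring
  -- primes
  have hp1 : ∀ p : ℕ, p.Prime → (p ∣ D1 ↔ z < p ∧ (p : ℤ) ∣ d ∧ (p : ℤ) ∣ X) := by
    intro p hp
    rw [hD1, Nat.dvd_gcd_iff, hD, dvd_Dz hd hp, ← Int.natCast_dvd, and_assoc]
  have hp2 : ∀ p : ℕ, p.Prime → p ∣ D2 → z < p ∧ (p : ℤ) ∣ d ∧ ¬ (p : ℤ) ∣ X := by
    intro p hp hpd
    have h1 : p ∣ D := by rw [hD2]; exact Dvd.dvd.mul_left hpd _
    have h2 := (dvd_Dz hd hp).1 (hD ▸ h1)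
    refine ⟨h2.1, h2.2, fun h3 => ?_⟩
    have h4 := (hp1 p hp).2 ⟨h2.1, h2.2, h3⟩
    exact hp.one_lt.ne' (Nat.dvd_one.1 (hcop ▸ Nat.dvd_gcd h4 hpd))
  have hnW : ∀ p : ℕ, p.Prime → (p : ℤ) ∣ X → ¬ (p : ℤ) ∣ W := by
    intro p hp h1 h2
    exact (Nat.prime_iff_prime_int.1 hp).not_isUnit (hXW.isUnit_of_dvd' h1 h2)
  have hd2 : ∀ p : ℕ, p.Prime → (p : ℤ) ∣ d → ∃ d' : ℤ, d = p * d' ∧ ¬ (p : ℤ) ∣ d' := by
    intro p hp h1
    obtain ⟨d', h2⟩ := h1
    refine ⟨d', h2, fun h3 => ?_⟩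
    obtain ⟨d'', h4⟩ := h3
    exact (Nat.prime_iff_prime_int.1 hp).not_isUnit (hd _ ⟨d'', by rw [h2, h4]; ring⟩)
  -- parity of the valuations
  have hval : ∀ p : ℕ, p.Prime → z < p → ∀ k,
      (Odd (vv p (F k)) ↔ (p : ℤ) ∣ d ∧ (p : ℤ) ∣ X ∧ Odd (f k).natDegree) := by
    intro p hp hzp k
    by_cases hpX : (p : ℤ) ∣ X
    · have hpW := hnW p hp hpX
      by_cases hpd : (p : ℤ) ∣ d
      · obtain ⟨d', hd', hpd'⟩ := hd2 p hp hpd
        obtain ⟨G, hG1, hG2, -⟩ := loc_both (f := f k) hp hm hev hpX hpd' hpW (h0p p hzp k)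
        rw [← hd', hFk k] at hG1
        have hG0 : G ≠ 0 := by
          rintro rfl
          exact hG2 (dvd_zero _)
        rw [hG1, vv_mul (pow_ne_zero _ (by exact_mod_cast hp.ne_zero)) hG0, vv_pow, vv_self hp,
          vv_zero hG2, mul_one, add_zero]
        exact ⟨fun h => ⟨hpd, hpX, h⟩, fun h => h.2.2⟩
      · have h1 := loc_zero (f := f k) hp (by omega : m ≠ 0) hpX hpd hpW (h0p p hzp k)
        rw [hFk k] at h1
        rw [vv_zero h1]
        exact ⟨fun h => absurd h (by decide), fun h => absurd h.1 hpd⟩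
    · by_cases hpdW : (p : ℤ) ∣ d * W
      · have h1 := (loc_inf (f := f k) hp (by omega : m ≠ 0) hpX hpdW (hlcp p hzp k)).1
        rw [hFk k] at h1
        rw [vv_zero h1]
        exact ⟨fun h => absurd h (by decide), fun h => absurd h.2.1 hpX⟩
      · have hpd : ¬ (p : ℤ) ∣ d := fun h => hpdW (Dvd.dvd.mul_right h _)
        have hpW : ¬ (p : ℤ) ∣ W := fun h => hpdW (Dvd.dvd.mul_left h _)
        by_cases hpF : (p : ℤ) ∣ F k
        · have hother : ∀ l, l ≠ k → ¬ (p : ℤ) ∣ F l := by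
            intro l hlk hl
            rw [← hFk] at hl hpF
            exact loc_cop hp hpd hpW (hRp p hzp k l) (hAB k l hlk.symm) hpF hl
          have h1 : ¬ (p : ℤ) ∣ X * W * ∏ l ∈ univ.erase k, F l := by
            intro h
            have hpi := Nat.prime_iff_prime_int.1 hp
            rcases hpi.dvd_or_dvd h with h | h
            · rcases hpi.dvd_or_dvd h with h | h
              · exact hpX h
              · exact hpW h
            · obtain ⟨l, hl, hl'⟩ := (hpi.dvd_finsetProd_iff _).1 h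
              exact hother l (Finset.ne_of_mem_erase hl) hl'
          have h2 : Y ^ 2 = (X * W * ∏ l ∈ univ.erase k, F l) * F k := by
            rw [hprod, ← Finset.mul_prod_erase univ F (mem_univ k)]
            ring
          have h3 : vv p (Y ^ 2) = vv p (F k) := by
            rw [h2, vv_mul _ (hFne k), vv_zero h1, zero_add]
            intro h4
            rw [h4] at h1
            exact h1 (dvd_zero _)
          rw [← h3, vv_pow]
          exact ⟨fun h => absurd h (Nat.not_odd_iff_even.2 (even_two_mul _)),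
            fun h => absurd h.1 hpd⟩
        · rw [vv_zero hpF]
          exact ⟨fun h => absurd h (by decide), fun h => absurd h.1 hpd⟩
  -- the rough parts
  have hDz : ∀ k, Dz z (s k) = D1 ^ ((f k).natDegree % 2) := by
    intro k
    have hsq : Squarefree (D1 ^ ((f k).natDegree % 2)) := by
      rcases Nat.mod_two_eq_zero_or_one (f k).natDegree with h | h <;> rw [h]
      · rw [pow_zero]; exact squarefree_one
      · rw [pow_one]; exact hD1rg.1
    rw [Nat.Squarefree.ext_iff (Dz_sqf (hs k)).1 hsq]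
    intro p hp
    rw [dvd_Dz (hs k) hp, sqf_iff hp (hT k) (hs k) (hsT k)]
    rcases Nat.mod_two_eq_zero_or_one (f k).natDegree with h | h
    · rw [h, pow_zero, Nat.dvd_one]
      constructor
      · rintro ⟨h1, h2⟩
        have h3 := ((hval p hp h1 k).1 h2).2.2
        rw [Nat.odd_iff] at h3
        omega
      · intro h1
        exact absurd h1 hp.one_lt.ne'
    · rw [h, pow_one, hp1 p hp]
      constructor
      · rintro ⟨h1, h2⟩
        have h3 := (hval p hp h1 k).1 h2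
        exact ⟨h1, h3.1, h3.2.1⟩
      · rintro ⟨h1, h2, h3⟩
        exact ⟨h1, (hval p hp h1 k).2 ⟨h2, h3, Nat.odd_iff.2 h⟩⟩
  have hfin : ∀ k, F k = c k * (D1 : ℤ) ^ ((f k).natDegree % 2) * (T k) ^ 2 := by
    intro k
    conv_lhs => rw [hsT k, hcs k, hDz k]
    push_cast
    ring
  refine ⟨κ, hκ, c, hc, D1, D2, hD1rg, hD2rg, hcop, hdd, T, hT, hfin, ?_, ?_⟩
  · intro p hp k
    have hpp := Nat.prime_of_mem_primeFactors hp
    obtain ⟨h1, h2, h3⟩ := hp2 p hpp (Nat.dvd_of_mem_primeFactors hp)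
    obtain ⟨h4, h5⟩ := loc_inf (f := f k) (m := m) hpp (by omega : m ≠ 0) h3
      (Dvd.dvd.mul_right h2 W) (hlcp p h1 k)
    have h5 := h5 hev
    rw [hFk k] at h4 h5
    have hpT : ¬ (p : ℤ) ∣ T k := by
      intro h
      apply h4
      rw [hfin k]
      exact Dvd.dvd.mul_left (dvd_pow h two_ne_zero) _
    have h6 : jacobiSym (F k) p = jacobiSym (c k * (D1 : ℤ) ^ ((f k).natDegree % 2)) p := by
      conv_lhs => rw [hfin k]
      rw [jacobiSym.mul_left, jac_pow_even hpp hpT even_two, mul_one]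
    rw [mul_assoc, jacobiSym.mul_left, ← h6, h5, jac_mul_self hpp (hlcp p h1 k)]
  · intro p hp k
    have hpp := Nat.prime_of_mem_primeFactors hp
    have hpi := Nat.prime_iff_prime_int.1 hpp
    have hpD1 := Nat.dvd_of_mem_primeFactors hp
    obtain ⟨h1, h2, h3⟩ := (hp1 p hpp).1 hpD1
    obtain ⟨d', hd', hpd'⟩ := hd2 p hpp h2
    obtain ⟨G, hG1, hG2, hG3⟩ := loc_both (f := f k) hpp hm hev h3 hpd' (hnW p hpp h3) (h0p p h1 k)
    rw [← hd', hFk k] at hG1
    obtain ⟨D1', hD1'⟩ := hpD1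
    have hD1'p : ¬ (p : ℤ) ∣ (D1' : ℤ) := by
      intro h
      have h4 : p ∣ D1' := by exact_mod_cast h
      obtain ⟨r, hr⟩ := h4
      have := hD1rg.1 p ⟨r, by rw [hD1', hr]; ring⟩
      exact hpp.one_lt.ne' (Nat.isUnit_iff.1 this)
    have hp0 : (p : ℤ) ≠ 0 := by exact_mod_cast hpp.ne_zero
    have hd'2 : d' = κ * D1' * D2 := by
      have h4 : (p : ℤ) * d' = p * (κ * D1' * D2) := by
        rw [← hd', hdd, hD1']
        push_cast
        ring
      exact mul_left_cancel₀ hp0 h4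
    obtain ⟨n, hn⟩ : ∃ n, n = (f k).natDegree := ⟨_, rfl⟩
    obtain ⟨e, he⟩ : ∃ e, e = (f k).natDegree % 2 := ⟨_, rfl⟩
    obtain ⟨h, hh⟩ : ∃ h, h = (f k).natDegree / 2 := ⟨_, rfl⟩
    have hnhe : n = 2 * h + e := by omega
    rw [← hn] at hG1 hG3
    rw [← he]
    have hfk := hfin k
    rw [← he, hG1, hD1'] at hfk
    -- the valuation of `T`
    have hckp : ¬ (p : ℤ) ∣ c k := by
      intro h4
      have := Pool.Agent.W460.TW.EE_prime (hc k) p hpp h4
      omega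
    have hc0 : c k ≠ 0 := fun h4 => hckp (by rw [h4]; exact dvd_zero _)
    have hD10 : (D1' : ℤ) ≠ 0 := fun h4 => hD1'p (by rw [h4]; exact dvd_zero _)
    have hG0 : G ≠ 0 := fun h4 => hG2 (by rw [h4]; exact dvd_zero _)
    have hvT : vv p (T k) = h := by
      have h5 := congrArg (vv p) hfk
      push_cast at h5
      rw [vv_mul (pow_ne_zero _ hp0) hG0, vv_pow, vv_self hpp, vv_zero hG2,
        vv_mul (mul_ne_zero hc0 (pow_ne_zero _ (mul_ne_zero hp0 hD10))) (pow_ne_zero _ (hT k)),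
        vv_mul hc0 (pow_ne_zero _ (mul_ne_zero hp0 hD10)), vv_zero hckp, vv_pow, vv_pow,
        vv_mul hp0 hD10, vv_self hpp, vv_zero hD1'p] at h5
      omega
    obtain ⟨T', hT'⟩ : ∃ T' : ℤ, T k = (p : ℤ) ^ h * T' := by
      have h5 : p ^ h ∣ (T k).natAbs := by
        rw [← hvT]
        exact Nat.ordProj_dvd _ _
      have h6 : ((p ^ h : ℕ) : ℤ) ∣ T k := Int.natCast_dvd.2 h5
      push_cast at h6
      exact h6
    have hT'p : ¬ (p : ℤ) ∣ T' := by
      intro h5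
      have hT'0 : T' ≠ 0 := by
        rintro rfl
        exact hT k (by rw [hT', mul_zero])
      have h6 := vv_pos hpp hT'0 h5
      rw [hT', vv_mul (pow_ne_zero _ hp0) hT'0, vv_pow, vv_self hpp] at hvT
      omega
    have hGeq : G = c k * (D1' : ℤ) ^ e * T' ^ 2 := by
      have h5 : (p : ℤ) ^ n * G = (p : ℤ) ^ n * (c k * (D1' : ℤ) ^ e * T' ^ 2) := by
        rw [hfk, hT', hnhe]
        push_cast
        ring
      exact mul_left_cancel₀ (pow_ne_zero _ hp0) h5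
    have hJ : jacobiSym (c k) p * jacobiSym (D1' : ℤ) p ^ e =
        jacobiSym ((f k).coeff 0) p * jacobiSym d' p ^ e := by
      have h5 : jacobiSym d' p ^ n = jacobiSym d' p ^ e := by
        rw [hnhe, pow_add, pow_mul, sq, jac_mul_self hpp hpd', one_pow, one_mul]
      rw [← h5, ← hG3, hGeq, jacobiSym.mul_left, jac_pow_even hpp hT'p even_two, mul_one,
        jacobiSym.mul_left, jacobiSym.pow_left]
    have hJd : jacobiSym d' p = jacobiSym κ p * jacobiSym (D1' : ℤ) p * jacobiSym (D2 : ℤ) p := by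
      rw [hd'2, jacobiSym.mul_left, jacobiSym.mul_left]
    have hJd2 : jacobiSym d' p ^ e * jacobiSym d' p ^ e = 1 := by
      rw [← mul_pow, jac_mul_self hpp hpd', one_pow]
    have hJD1 : jacobiSym (D1' : ℤ) p ^ e * jacobiSym (D1' : ℤ) p ^ e = 1 := by
      rw [← mul_pow, jac_mul_self hpp hD1'p, one_pow]
    have hJ0 := jac_mul_self hpp (h0p p h1 k)
    rw [jacobiSym.mul_left, jacobiSym.mul_left, jacobiSym.mul_left, jacobiSym.pow_left,
      jacobiSym.pow_left]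
    calc jacobiSym ((f k).coeff 0) p * jacobiSym (c k) p * jacobiSym κ p ^ e *
          jacobiSym (D2 : ℤ) p ^ e =
        jacobiSym ((f k).coeff 0) p * (jacobiSym (c k) p * jacobiSym (D1' : ℤ) p ^ e) *
          (jacobiSym κ p * jacobiSym (D1' : ℤ) p * jacobiSym (D2 : ℤ) p) ^ e +
          jacobiSym ((f k).coeff 0) p * jacobiSym (c k) p * jacobiSym κ p ^ e *
          jacobiSym (D2 : ℤ) p ^ e *
            (1 - jacobiSym (D1' : ℤ) p ^ e * jacobiSym (D1' : ℤ) p ^ e) := by ring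
      _ = (jacobiSym ((f k).coeff 0) p * jacobiSym ((f k).coeff 0) p) *
          (jacobiSym d' p ^ e * jacobiSym d' p ^ e) := by
          rw [hJD1, hJ, ← hJd]; ring
      _ = 1 := by rw [hJ0, hJd2, one_mul]

end Pool.Agent.W2helper7.HT
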