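import Pool.Agent.W2helper7.HT.Cnt2
import Pool.Agent.W2helper7.HT.Red

/-!
# Twists of higher order: the points of nonconstant type
-/

set_option autoImplicit false

namespace Pool.Agent.W2helper7.HT

open Finset Filter Polynomial Pool.Agent.W262.RK Pool.Agent.W262.TW
open Pool.Agent.W975.TW (hom_map hom_smul hom_one hom_lc)

open scoped Classical

variable {K : Type} [Fintype K]

/-- the value at a rational number -/
noncomputable def ev (f : ℤ[X]) (s : ℚ) : ℚ := f.eval₂ (Int.castRingHom ℚ) s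

/-- `s` is of constant type -/
def Const (f : K → ℤ[X]) (s : ℚ) : Prop :=
  (∀ k, IsSquare (((f k).leadingCoeff : ℚ) * s ^ (f k).natDegree * ev (f k) s)) ∨
  (∀ k, IsSquare (((f k).coeff 0 : ℚ) * ev (f k) s))

/-- `(x, y)` is a point with `x y ≠ 0` of the curve `y² = x ∏ F_k(x^m, d)` -/
def Pt (f : K → ℤ[X]) (m : ℕ) (d : ℤ) (x y : ℚ) : Prop :=
  x ≠ 0 ∧ y ≠ 0 ∧ y ^ 2 = x * ∏ k, hom (f k) (x ^ m) (d : ℚ)

/-- a point of nonconstant type -/
def BadD (f : K → ℤ[X]) (d : ℤ) : Prop :=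
  ∃ m : ℕ, Even m ∧ 2 ≤ m ∧ ∃ x y : ℚ, Pt f m d x y ∧ ¬ Const f (x ^ m / d)

lemma sq_mul_iff {a r : ℚ} (hr : r ≠ 0) : IsSquare (a * r ^ 2) ↔ IsSquare a := by
  constructor
  · rintro ⟨b, hb⟩
    refine ⟨b / r, ?_⟩
    field_simp
    linear_combination hb
  · rintro ⟨b, hb⟩
    exact ⟨b * r, by rw [hb]; ring⟩

lemma hom_ev (f : ℤ[X]) (u d : ℚ) (hd : d ≠ 0) : hom f u d = d ^ f.natDegree * ev f (u / d) := by
  have h := hom_smul f d (u / d) 1
  rw [mul_div_cancel₀ _ hd, mul_one, hom_one] at h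
  exact h

omit [Fintype K] in
/-- the type of a point in terms of the forms -/
lemma const_iff (f : K → ℤ[X]) {m : ℕ} (hm : Even m) {d : ℤ} (hd : d ≠ 0) {x : ℚ} (hx : x ≠ 0) :
    Const f (x ^ m / d) ↔
      (∀ k, IsSquare (((f k).leadingCoeff : ℚ) * hom (f k) (x ^ m) (d : ℚ))) ∨
      (∀ k, IsSquare (((f k).coeff 0 : ℚ) * (d : ℚ) ^ (f k).natDegree *
        hom (f k) (x ^ m) (d : ℚ))) := by
  have hd' : (d : ℚ) ≠ 0 := by exact_mod_cast hd
  obtain ⟨n, rfl⟩ := hm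
  unfold Const
  refine or_congr (forall_congr' fun k => ?_) (forall_congr' fun k => ?_)
  · rw [hom_ev _ _ _ hd']
    rw [← sq_mul_iff (a := ((f k).leadingCoeff : ℚ) * (x ^ (n + n) / (d : ℚ)) ^ (f k).natDegree *
      ev (f k) (x ^ (n + n) / d)) (r := ((d : ℚ) / x ^ n) ^ (f k).natDegree) (by positivity)]
    have : ((f k).leadingCoeff : ℚ) * (x ^ (n + n) / (d : ℚ)) ^ (f k).natDegree *
      ev (f k) (x ^ (n + n) / d) * (((d : ℚ) / x ^ n) ^ (f k).natDegree) ^ 2 =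
      ((f k).leadingCoeff : ℚ) * ((d : ℚ) ^ (f k).natDegree * ev (f k) (x ^ (n + n) / d)) := by
      have e1 : (x ^ (n + n) / (d : ℚ)) ^ (f k).natDegree * (((d : ℚ) / x ^ n) ^ (f k).natDegree) ^ 2 =
          (d : ℚ) ^ (f k).natDegree := by
        rw [← pow_mul, mul_comm (f k).natDegree 2, pow_mul, ← mul_pow]
        congr 1
        field_simp
        ring
      calc _ = ((f k).leadingCoeff : ℚ) * ev (f k) (x ^ (n + n) / d) *
          ((x ^ (n + n) / (d : ℚ)) ^ (f k).natDegree * (((d : ℚ) / x ^ n) ^ (f k).natDegree) ^ 2) := by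
            ring
        _ = _ := by rw [e1]; ring
    rw [this]
  · rw [hom_ev _ _ _ hd', ← sq_mul_iff (a := ((f k).coeff 0 : ℚ) * ev (f k) (x ^ (n + n) / d))
      (r := (d : ℚ) ^ (f k).natDegree) (pow_ne_zero _ hd')]
    have : ((f k).coeff 0 : ℚ) * ev (f k) (x ^ (n + n) / d) * ((d : ℚ) ^ (f k).natDegree) ^ 2 =
      ((f k).coeff 0 : ℚ) * (d : ℚ) ^ (f k).natDegree * ((d : ℚ) ^ (f k).natDegree *
        ev (f k) (x ^ (n + n) / d)) := by ring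
    rw [this]

omit [Fintype K] in
/-- integral coordinates -/
lemma integral [Fintype K] (f : K → ℤ[X]) {m : ℕ} (hm : Even m) {d : ℤ} {x y : ℚ} (h : Pt f m d x y) :
    ∃ Y : ℤ, Y ≠ 0 ∧
      Y ^ 2 = x.num * (x.den : ℤ) * ∏ k, hom (f k) (x.num ^ m) (d * (x.den : ℤ) ^ m) := by
  obtain ⟨hx, hy, hxy⟩ := h
  have hW : (x.den : ℚ) ≠ 0 := by exact_mod_cast x.den_nz
  have hxn : x * x.den = x.num := Rat.mul_den_eq_num x
  obtain ⟨n, rfl⟩ := hm
  have h1 : ∀ k, ((hom (f k) (x.num ^ (n + n)) (d * (x.den : ℤ) ^ (n + n)) : ℤ) : ℚ) =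
      ((x.den : ℚ) ^ (n + n)) ^ (f k).natDegree * hom (f k) (x ^ (n + n)) (d : ℚ) := by
    intro k
    have h2 := hom_map (Int.castRingHom ℚ) (f k) (x.num ^ (n + n)) (d * (x.den : ℤ) ^ (n + n))
    rw [eq_intCast, eq_intCast, eq_intCast] at h2
    rw [h2, ← hom_smul]
    congr 1
    · push_cast
      rw [← hxn, mul_pow, mul_comm]
    · push_cast
      rw [mul_comm]
  obtain ⟨r, hr⟩ : ∃ r : ℚ, r = x.den * (∏ k, ((x.den : ℚ) ^ n) ^ (f k).natDegree) * y := ⟨_, rfl⟩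
  have hr0 : r ≠ 0 := by
    rw [hr]
    exact mul_ne_zero (mul_ne_zero hW (Finset.prod_ne_zero_iff.2 fun k _ =>
      pow_ne_zero _ (pow_ne_zero _ hW))) hy
  have h3 : (((x.num * (x.den : ℤ) * ∏ k, hom (f k) (x.num ^ (n + n)) (d * (x.den : ℤ) ^ (n + n)) : ℤ)
      : ℤ) : ℚ) = r * r := by
    push_cast
    rw [Finset.prod_congr rfl fun k _ => h1 k, Finset.prod_mul_distrib, ← hxn]
    have h4 : ∏ k, ((x.den : ℚ) ^ (n + n)) ^ (f k).natDegree =
        (∏ k, ((x.den : ℚ) ^ n) ^ (f k).natDegree) ^ 2 := by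
      rw [← Finset.prod_pow]
      refine Finset.prod_congr rfl fun k _ => ?_
      ring
    rw [h4, hr]
    linear_combination (-(x.den : ℚ) ^ 2 * (∏ k, ((x.den : ℚ) ^ n) ^ (f k).natDegree) ^ 2) * hxy
  have h5 : IsSquare (x.num * (x.den : ℤ) *
      ∏ k, hom (f k) (x.num ^ (n + n)) (d * (x.den : ℤ) ^ (n + n)) : ℤ) := by
    rw [← Rat.isSquare_intCast_iff]
    exact ⟨r, h3⟩
  obtain ⟨Y, hY⟩ := h5
  refine ⟨Y, ?_, by rw [hY, sq]⟩
  rintro rfl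
  rw [hY] at h3
  push_cast at h3
  exact hr0 (mul_self_eq_zero.1 h3.symm)

/-- from estimates for large `X` to all `X ≥ 3` -/
lemma all_of_ev (E : ℤ → Prop) (C1 : ℝ) (hC10 : 0 ≤ C1)
    (hev : ∀ᶠ X : ℕ in atTop, ({d : ℤ | d.natAbs ≤ X ∧ E d}.ncard : ℝ) ≤
      C1 * X * (Real.log X) ^ (-(1 / 5 : ℝ))) :
    ∃ C : ℝ, 0 ≤ C ∧ ∀ X : ℕ, 3 ≤ X → ({d : ℤ | d.natAbs ≤ X ∧ E d}.ncard : ℝ) ≤
      C * X * (Real.log X) ^ (-(1 / 5 : ℝ)) := by
  obtain ⟨X0, hX0⟩ := eventually_atTop.mp hev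
  set D : ℝ := (Real.log (X0 + 3)) ^ (1 / 5 : ℝ) with hD
  have hD0 : 0 ≤ D := Real.rpow_nonneg (Real.log_nonneg (by
    have : (0 : ℝ) ≤ X0 := Nat.cast_nonneg _
    linarith)) _
  refine ⟨C1 + 3 * D, by positivity, fun X hX3 => ?_⟩
  have hX3' : (3 : ℝ) ≤ X := by exact_mod_cast hX3
  have hlog : 0 < Real.log (X : ℝ) := Real.log_pos (by linarith)
  have hlp : 0 < Real.log (X : ℝ) ^ (-(1 / 5 : ℝ)) := Real.rpow_pos_of_pos hlog _
  rcases le_or_gt X0 X with h | h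
  · refine (hX0 X h).trans ?_
    have : 0 ≤ 3 * D * X * (Real.log X) ^ (-(1 / 5 : ℝ)) := by positivity
    nlinarith
  · have e1 : {d : ℤ | d.natAbs ≤ X ∧ E d} ⊆ (Finset.Icc (-(X : ℤ)) X : Finset ℤ) := by
      intro d hd
      have h5 : d.natAbs ≤ X := hd.1
      rw [Finset.coe_Icc, Set.mem_Icc]
      omega
    have e2 := Set.ncard_le_ncard e1 (Finset.finite_toSet _)
    rw [Set.ncard_coe_finset, Int.card_Icc] at e2
    have e3 : ({d : ℤ | d.natAbs ≤ X ∧ E d}.ncard : ℝ) ≤ 3 * X := by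
      have : {d : ℤ | d.natAbs ≤ X ∧ E d}.ncard ≤ 3 * X := by omega
      exact_mod_cast this
    refine e3.trans ?_
    have e4 : 1 ≤ D * Real.log (X : ℝ) ^ (-(1 / 5 : ℝ)) := by
      rw [Real.rpow_neg hlog.le, ← div_eq_mul_inv, le_div_iff₀ (Real.rpow_pos_of_pos hlog _),
        one_mul, hD]
      apply Real.rpow_le_rpow hlog.le _ (by norm_num)
      apply Real.log_le_log (by linarith)
      have : (X : ℝ) ≤ X0 := by exact_mod_cast h.le
      linarith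
    have e5 : 0 ≤ C1 * X * (Real.log X) ^ (-(1 / 5 : ℝ)) := by positivity
    have e6 : 3 * (X : ℝ) * 1 ≤ 3 * X * (D * Real.log (X : ℝ) ^ (-(1 / 5 : ℝ))) :=
      mul_le_mul_of_nonneg_left e4 (by positivity)
    calc 3 * (X : ℝ) = 3 * X * 1 := by ring
      _ ≤ 3 * X * (D * Real.log (X : ℝ) ^ (-(1 / 5 : ℝ))) := e6
      _ ≤ (C1 + 3 * D) * X * (Real.log X) ^ (-(1 / 5 : ℝ)) := by nlinarith

end Pool.Agent.W2helper7.HT
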