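import Pool.Agent.W262.TW.Full

/-!
# Twists of higher order: estimates of one term (adapted from `Pool.Agent.W460.TW.key`)
-/

set_option autoImplicit false

namespace Pool.Agent.W2helper7.HT

open Finset Filter Pool.Agent.W262.RK Pool.Agent.W262.TW
open Pool.Agent.W460.TW (growthL growthX harm_le)

/-- the small numbers -/
noncomputable def Vf (B X : ℕ) : ℕ := ⌈(Real.log X) ^ B⌉₊

/-- the exponent -/
noncomputable def ww (C4 : ℝ) (Y V : ℕ) : ℝ :=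
  3 / 4 * Real.log (Real.log Y) + C4 * (1 + Real.log (Real.log ((V : ℝ) + 3)))

theorem term (C4 : ℝ) (hC4 : 0 ≤ C4) (B : ℕ) : ∀ᶠ X : ℕ in atTop,
    1 ≤ Vf B X ∧ ((Vf B X : ℕ) : ℝ) ^ 2 ≤ X * (Real.log X) ^ (-(1 / 5 : ℝ)) ∧
    (∑ n ∈ Icc 1 (Vf B X), ((n : ℝ))⁻¹) ≤ (Real.log X) ^ (1 / 100 : ℝ) ∧
    (Real.log X) ^ (-(22 / 100) : ℝ) ≤ (Real.log X) ^ (-(1 / 5 : ℝ)) ∧ 1 ≤ Real.log X ∧
    ∀ U : ℕ, 1 ≤ U → U ≤ Vf B X → 3 ≤ X / U ∧ 1 ≤ Real.log ((X / U : ℕ) : ℝ) ∧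
      (Real.log ((X / U : ℕ) : ℝ)) ^ B ≤ Vf B X ∧
      ((Vf B X : ℕ) : ℝ) ≤ (Real.log ((X / U : ℕ) : ℝ)) ^ (B + 10) ∧
      0 ≤ ww C4 (X / U) (Vf B X) ∧
      ∀ Cf : ℝ, Cf * ((X / U : ℕ) : ℝ) * (Real.log ((X / U : ℕ) : ℝ)) ^ (1 / 100 - 1 : ℝ) *
        Real.exp (ww C4 (X / U) (Vf B X)) ≤
          3 * |Cf| * X * (Real.log X) ^ (-(23 / 100) : ℝ) * ((U : ℕ) : ℝ)⁻¹ := by
  have eL : ∀ᶠ X : ℕ in atTop, Real.exp (C4 * (1 + Real.log ((B + 2 : ℝ) *
      Real.log (Real.log X)))) ≤ (Real.log X) ^ (1 / 100 : ℝ) ∧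
      (1 + (B + 2 : ℝ) * Real.log (Real.log X)) ^ 2 ≤ (Real.log X) ^ (1 / 100 : ℝ) := by
    have h := growthL (B + 2 : ℝ) 2 C4 (by
      have : (0 : ℝ) ≤ B := Nat.cast_nonneg B
      linarith)
    exact (Real.tendsto_log_atTop.comp tendsto_natCast_atTop_atTop).eventually h
  have eX := tendsto_natCast_atTop_atTop.eventually (growthX B 2)
  have e3 : ∀ᶠ X : ℕ in atTop, max 3 (2 * 3 ^ (B + 10)) ≤ Real.log (X : ℝ) :=
    (Real.tendsto_log_atTop.comp tendsto_natCast_atTop_atTop).eventually (eventually_ge_atTop _)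
  filter_upwards [eL, eX, e3] with X hL hX h3L
  obtain ⟨hL1, hL2⟩ := hL
  obtain ⟨hX1, hX2, hX3, hX4⟩ := hX
  set L := Real.log (X : ℝ) with hLdef
  have hL3 : 3 ≤ L := (le_max_left _ _).trans h3L
  have hLbig : 2 * 3 ^ (B + 10) ≤ L := (le_max_right _ _).trans h3L
  have hL0 : 0 < L := by linarith
  have hXpos : (0 : ℝ) < X := by
    by_contra h
    have : (X : ℝ) = 0 := le_antisymm (not_lt.mp h) (Nat.cast_nonneg X)
    rw [hLdef, this, Real.log_zero] at hL0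
    exact lt_irrefl _ hL0
  obtain ⟨V, hVdef⟩ : ∃ V : ℕ, V = Vf B X := ⟨_, rfl⟩
  rw [← hVdef]
  have hVdef' : V = ⌈L ^ B⌉₊ := hVdef
  have hLB1 : (1 : ℝ) ≤ L ^ B := one_le_pow₀ (by linarith)
  have hVge : L ^ B ≤ V := by rw [hVdef']; exact Nat.le_ceil _
  have hVle : (V : ℝ) ≤ 2 * L ^ B := by
    have := Nat.ceil_lt_add_one (a := L ^ B) (by positivity)
    rw [← hVdef'] at this
    linarith
  have hV1 : 1 ≤ V := by
    have : (1 : ℝ) ≤ V := hLB1.trans hVge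
    exact_mod_cast this
  have hVN : ((V : ℝ)) ^ 2 ≤ (X : ℝ) ^ (1 / 2 : ℝ) :=
    (pow_le_pow_left₀ (Nat.cast_nonneg V) hVle 2).trans hX1
  have hV3 : Real.log ((V : ℝ) + 3) ≤ (B + 2 : ℝ) * Real.log L := by
    have e1 : (V : ℝ) + 3 ≤ L ^ (B + 2) := by
      rw [pow_add]
      have a1 : (5 : ℝ) ≤ L ^ 2 := by nlinarith
      have a2 : L ^ B * 5 ≤ L ^ B * L ^ 2 := mul_le_mul_of_nonneg_left a1 (by positivity)
      linarith
    have e2 : Real.log (L ^ (B + 2)) = (B + 2 : ℝ) * Real.log L := by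
      rw [Real.log_pow]
      push_cast
      ring
    rw [← e2]
    exact Real.log_le_log (by positivity) e1
  have hlogV3 : 0 < Real.log ((V : ℝ) + 3) := Real.log_pos (by
    have : (0 : ℝ) ≤ V := Nat.cast_nonneg V
    linarith)
  have hlogV : Real.log (V : ℝ) ≤ (B + 2 : ℝ) * Real.log L := by
    refine le_trans (Real.log_le_log ?_ ?_) hV3
    · exact_mod_cast hV1
    · linarith
  have hEx : Real.exp (C4 * (1 + Real.log (Real.log ((V : ℝ) + 3)))) ≤ L ^ (1 / 100 : ℝ) := by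
    refine le_trans (Real.exp_le_exp.mpr ?_) hL1
    apply mul_le_mul_of_nonneg_left _ hC4
    have := Real.log_le_log hlogV3 hV3
    linarith
  refine ⟨hV1, hVN.trans hX4, ?_, Real.rpow_le_rpow_of_exponent_le (by linarith) (by norm_num),
    by linarith, ?_⟩
  · refine (harm_le V _ L hlogV).trans ?_
    refine le_trans ?_ hL2
    have h1 : (1 : ℝ) ≤ 1 + (B + 2 : ℝ) * Real.log L := by
      have : 0 ≤ Real.log L := Real.log_nonneg (by linarith)
      have hB : (0 : ℝ) ≤ B := Nat.cast_nonneg B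
      have : 0 ≤ (B + 2 : ℝ) * Real.log L := by positivity
      linarith
    nlinarith
  intro U hU1 hUV'
  have hU0 : (0 : ℝ) < U := by exact_mod_cast hU1
  have hV1' : (1 : ℝ) ≤ V := by exact_mod_cast hV1
  have hUV : (U : ℝ) ≤ (V : ℝ) ^ 2 := by
    have h1 : (U : ℝ) ≤ V := by exact_mod_cast hUV'
    nlinarith
  obtain ⟨Y, hY⟩ : ∃ Y : ℕ, Y = X / U := ⟨_, rfl⟩
  rw [← hY]
  have hYle : (Y : ℝ) ≤ X / U := by rw [hY]; exact Nat.cast_div_le
  have hYge : (X : ℝ) / U ≤ Y + 1 := by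
    rw [div_le_iff₀ hU0, hY]
    have e1 : X < (X / U + 1) * U := Nat.lt_mul_of_div_lt (Nat.lt_succ_self _) hU1
    have e2 : (X : ℝ) < ((X / U : ℕ) + 1) * U := by exact_mod_cast e1
    exact e2.le
  have hsq : (X : ℝ) ^ (1 / 2 : ℝ) ≤ X / U := by
    rw [le_div_iff₀ hU0]
    calc (X : ℝ) ^ (1 / 2 : ℝ) * U ≤ (X : ℝ) ^ (1 / 2 : ℝ) * (X : ℝ) ^ (1 / 2 : ℝ) := by
          apply mul_le_mul_of_nonneg_left (hUV.trans hVN) (Real.rpow_nonneg hXpos.le _)
      _ = X := by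
        rw [← Real.rpow_add hXpos]
        norm_num
  have hY3 : 3 ≤ Y := by
    have : (3 : ℝ) ≤ Y := by linarith
    exact_mod_cast this
  have hYX : (X : ℝ) ^ (1 / 3 : ℝ) ≤ Y := by linarith
  have hYpos : (0 : ℝ) < Y := by
    have : (3 : ℝ) ≤ Y := by exact_mod_cast hY3
    linarith
  have hYleX : (Y : ℝ) ≤ X := by
    refine hYle.trans (div_le_self hXpos.le ?_)
    exact_mod_cast hU1
  have hlogY1 : L / 3 ≤ Real.log Y := by
    have e1 := Real.log_le_log (Real.rpow_pos_of_pos hXpos _) hYX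
    rw [Real.log_rpow hXpos, ← hLdef] at e1
    linarith
  have hlogY2 : Real.log Y ≤ L := Real.log_le_log hYpos hYleX
  have hlogY0 : 1 ≤ Real.log Y := by linarith
  have hlogYp : 0 < Real.log Y := by linarith
  have hw0 : 0 ≤ ww C4 Y V := by
    unfold ww
    have e1 : 0 ≤ Real.log (Real.log Y) := Real.log_nonneg hlogY0
    have e2 : 0 ≤ Real.log (Real.log ((V : ℝ) + 3)) := by
      apply Real.log_nonneg
      rw [← Real.log_exp 1]
      apply Real.log_le_log (Real.exp_pos 1)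
      have := Real.exp_one_lt_d9
      linarith
    have e3 : 0 ≤ C4 * (1 + Real.log (Real.log ((V : ℝ) + 3))) := mul_nonneg hC4 (by linarith)
    linarith
  have e1 : Real.log Y ^ B ≤ (V : ℝ) := by
    calc Real.log Y ^ B ≤ L ^ B := pow_le_pow_left₀ hlogYp.le hlogY2 B
      _ ≤ V := hVge
  have e2 : (V : ℝ) ≤ Real.log Y ^ (B + 10) := by
    have a1 : (L / 3) ^ (B + 10) ≤ Real.log Y ^ (B + 10) :=
      pow_le_pow_left₀ (by positivity) hlogY1 _
    refine le_trans (hVle.trans ?_) a1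
    rw [div_pow, le_div_iff₀ (by positivity)]
    have a2 : L ^ (B + 10) = L ^ B * L ^ 10 := pow_add _ _ _
    have a3 : L ≤ L ^ 10 := by
      calc L = L ^ 1 := (pow_one L).symm
        _ ≤ L ^ 10 := pow_le_pow_right₀ (by linarith) (by norm_num)
    rw [a2]
    calc 2 * L ^ B * 3 ^ (B + 10) = L ^ B * (2 * 3 ^ (B + 10)) := by ring
      _ ≤ L ^ B * L ^ 10 := mul_le_mul_of_nonneg_left (hLbig.trans a3) (by positivity)
  refine ⟨hY3, hlogY0, e1, e2, hw0, fun Cf => ?_⟩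
  have f1 : Real.exp (ww C4 Y V) =
      Real.log Y ^ (3 / 4 : ℝ) * Real.exp (C4 * (1 + Real.log (Real.log ((V : ℝ) + 3)))) := by
    unfold ww
    rw [Real.exp_add, Real.rpow_def_of_pos hlogYp, mul_comm (3 / 4 : ℝ)]
  have f2 : Real.log Y ^ (1 / 100 - 1 : ℝ) * Real.log Y ^ (3 / 4 : ℝ) =
      Real.log Y ^ (-(24 / 100) : ℝ) := by
    rw [← Real.rpow_add hlogYp]
    norm_num
  have f3 : Real.log Y ^ (-(24 / 100) : ℝ) ≤ 3 * L ^ (-(24 / 100) : ℝ) := by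
    refine (Real.rpow_le_rpow_of_nonpos (by positivity : 0 < L / 3) hlogY1 (by norm_num)).trans ?_
    rw [Real.div_rpow hL0.le (by norm_num), Real.rpow_neg (by norm_num : (0 : ℝ) ≤ 3), div_inv_eq_mul,
      mul_comm]
    apply mul_le_mul_of_nonneg_right _ (Real.rpow_nonneg hL0.le _)
    calc (3 : ℝ) ^ (24 / 100 : ℝ) ≤ 3 ^ (1 : ℝ) :=
          Real.rpow_le_rpow_of_exponent_le (by norm_num) (by norm_num)
      _ = 3 := Real.rpow_one 3
  have f4 : L ^ (-(24 / 100) : ℝ) * L ^ (1 / 100 : ℝ) = L ^ (-(23 / 100) : ℝ) := by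
    rw [← Real.rpow_add hL0]
    norm_num
  have g1 : Cf * Y * Real.log Y ^ (1 / 100 - 1 : ℝ) * Real.exp (ww C4 Y V) =
      Cf * (Y * (Real.log Y ^ (-(24 / 100) : ℝ) *
        Real.exp (C4 * (1 + Real.log (Real.log ((V : ℝ) + 3)))))) := by
    rw [f1, ← f2]
    ring
  rw [g1]
  have g2 : Real.log Y ^ (-(24 / 100) : ℝ) *
        Real.exp (C4 * (1 + Real.log (Real.log ((V : ℝ) + 3)))) ≤ 3 * L ^ (-(23 / 100) : ℝ) := by
    calc _ ≤ (3 * L ^ (-(24 / 100) : ℝ)) * L ^ (1 / 100 : ℝ) :=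
          mul_le_mul f3 hEx (Real.exp_pos _).le (by positivity)
      _ = 3 * L ^ (-(23 / 100) : ℝ) := by rw [mul_assoc, f4]
  have g3 : 0 ≤ Y * (Real.log Y ^ (-(24 / 100) : ℝ) *
        Real.exp (C4 * (1 + Real.log (Real.log ((V : ℝ) + 3))))) := by positivity
  calc Cf * (Y * (Real.log Y ^ (-(24 / 100) : ℝ) *
        Real.exp (C4 * (1 + Real.log (Real.log ((V : ℝ) + 3)))))) ≤
        |Cf| * (Y * (Real.log Y ^ (-(24 / 100) : ℝ) *
        Real.exp (C4 * (1 + Real.log (Real.log ((V : ℝ) + 3)))))) :=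
        mul_le_mul_of_nonneg_right (le_abs_self _) g3
    _ ≤ |Cf| * ((X / U) * (3 * L ^ (-(23 / 100) : ℝ))) := by
        apply mul_le_mul_of_nonneg_left _ (abs_nonneg _)
        exact mul_le_mul hYle g2 (by positivity) (by positivity)
    _ = 3 * |Cf| * X * L ^ (-(23 / 100) : ℝ) * ((U : ℕ) : ℝ)⁻¹ := by
        rw [div_eq_mul_inv]
        ring

end Pool.Agent.W2helper7.HT
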